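import Mathlib

/-!
Bounded families of elements of C*-algebras, as a type with a single instance (the instance
search through `lp` is slow).
-/

set_option autoImplicit false

open scoped ENNReal

namespace Pool.Agent.MP3437a9

/-- Bounded families of elements of C*-algebras. -/
def PL {ι : Type} (E : ι → Type) [∀ i, NonUnitalCStarAlgebra (E i)] : Type := lp E ∞

namespace PL

variable {ι : Type} {E : ι → Type} [∀ i, NonUnitalCStarAlgebra (E i)]

noncomputable instance inst : NonUnitalCStarAlgebra (PL E) :=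
  inferInstanceAs (NonUnitalCStarAlgebra (lp E ∞))

/-- the coordinates -/
noncomputable def co (i : ι) : PL E →ₗ[ℂ] E i where
  toFun x := (show lp E ∞ from x) i
  map_add' _ _ := rfl
  map_smul' _ _ := rfl

/-- bounded family as an element -/
noncomputable def mk (f : ∀ i, E i) (C : ℝ) (h : ∀ i, ‖f i‖ ≤ C) : PL E :=
  (⟨f, memℓp_infty ⟨C, by rintro _ ⟨k, rfl⟩; exact h k⟩⟩ : lp E ∞)

theorem co_mk (f : ∀ i, E i) (C : ℝ) (h : ∀ i, ‖f i‖ ≤ C) (i : ι) : co i (mk f C h) = f i := rfl

theorem co_mul (x y : PL E) (i : ι) : co i (x * y) = co i x * co i y := rfl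

theorem ext {x y : PL E} (h : ∀ i, co i x = co i y) : x = y :=
  lp.ext (E := E) (p := ∞) (funext h)

theorem norm_co_le (x : PL E) (i : ι) : ‖co i x‖ ≤ ‖x‖ :=
  lp.norm_apply_le_norm (E := E) ENNReal.top_ne_zero x i

theorem norm_le {x : PL E} {C : ℝ} (hC : 0 ≤ C) (h : ∀ i, ‖co i x‖ ≤ C) : ‖x‖ ≤ C :=
  lp.norm_le_of_forall_le (E := E) hC h

end PL

end Pool.Agent.MP3437a9
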