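import Pool.Agent.Lib.MP_3437a9_an.Omega
import Pool.Agent.Lib.MP_3437a9_an.Amb

set_option autoImplicit false
set_option linter.unusedVariables false
set_option linter.unusedSectionVars false

open scoped InnerProductSpace ComplexConjugate ENNReal

namespace Pool.Agent.MP3437a9

abbrev HN (k : ℕ) := EuclideanSpace ℂ (Om k)

/-- Bounded families of operators. -/
def A1 : Type := PL (fun k : ℕ => HN k →L[ℂ] HN k)

noncomputable instance instA1 : NonUnitalCStarAlgebra A1 :=
  inferInstanceAs (NonUnitalCStarAlgebra (PL (fun k : ℕ => HN k →L[ℂ] HN k)))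

namespace A1

/-- the coordinates, as linear maps -/
noncomputable def co (k : ℕ) : A1 →ₗ[ℂ] (HN k →L[ℂ] HN k) :=
  PL.co (E := fun k : ℕ => HN k →L[ℂ] HN k) k

/-- the coordinates -/
noncomputable def c (x : A1) (k : ℕ) : HN k →L[ℂ] HN k := co k x

noncomputable instance : CoeFun A1 (fun _ => ∀ k : ℕ, HN k →L[ℂ] HN k) := ⟨c⟩

theorem c_add (x y : A1) (k : ℕ) : (x + y) k = x k + y k := map_add (co k) x y

theorem c_sub (x y : A1) (k : ℕ) : (x - y) k = x k - y k := map_sub (co k) x y

theorem c_mul (x y : A1) (k : ℕ) : (x * y) k = x k * y k := rfl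

theorem ext {x y : A1} (h : ∀ k, x k = y k) : x = y :=
  PL.ext (E := fun k : ℕ => HN k →L[ℂ] HN k) h

theorem norm_c_le (x : A1) (k : ℕ) : ‖x k‖ ≤ ‖x‖ :=
  PL.norm_co_le (E := fun k : ℕ => HN k →L[ℂ] HN k) x k

theorem norm_le {x : A1} {C : ℝ} (hC : 0 ≤ C) (h : ∀ k, ‖x k‖ ≤ C) : ‖x‖ ≤ C :=
  PL.norm_le (E := fun k : ℕ => HN k →L[ℂ] HN k) hC h

end A1

noncomputable def mkA1 (f : ∀ k : ℕ, HN k →L[ℂ] HN k) (hf : ∀ k, ‖f k‖ ≤ 1) : A1 :=
  PL.mk (E := fun k : ℕ => HN k →L[ℂ] HN k) f 1 hf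

/-- indicator as a complex function -/
noncomputable def ind (E : Set XX) (κ : XX) : ℂ := Set.indicator E (fun _ => (1 : ℂ)) κ

theorem ind_of_mem {E : Set XX} {κ : XX} (h : κ ∈ E) : ind E κ = 1 := Set.indicator_of_mem h _
theorem ind_of_notMem {E : Set XX} {κ : XX} (h : κ ∉ E) : ind E κ = 0 :=
  Set.indicator_of_notMem h _

theorem ind_norm_le (E : Set XX) (κ : XX) : ‖ind E κ‖ ≤ 1 := by
  by_cases h : κ ∈ E
  · rw [ind_of_mem h]; simp
  · rw [ind_of_notMem h]; simp

noncomputable def dE (E : Set XX) : A1 :=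
  mkA1 (fun k => diagOp (fun ω : Om k => ind E (kap ω))) (fun k => diagOp_norm_le _
    (fun ω => ind_norm_le E _))

noncomputable def Ps (s : Option (Fin 3)) : A1 :=
  mkA1 (fun k => permOp (actO s)) (fun k => permOp_norm_le _ (actO_invol s))

noncomputable def elt : Option (Option (Fin 3)) → A1
  | none => dE Set.univ
  | some s => Ps s

noncomputable def gen : Option (Option (Option (Fin 3))) → A1
  | none => dE WW
  | some A => elt A

theorem dE_apply (E : Set XX) (k : ℕ) : dE E k = diagOp (fun ω : Om k => ind E (kap ω)) := rfl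

theorem Ps_apply (s : Option (Fin 3)) (k : ℕ) : Ps s k = permOp (actO s) := rfl

theorem mul_apply' (a b : A1) (k : ℕ) : (a * b) k = a k * b k := rfl

theorem dE_univ_apply (k : ℕ) : dE Set.univ k = 1 := by
  rw [dE_apply]
  ext f ω
  rw [diagOp_apply, ind_of_mem (Set.mem_univ _), one_mul]
  rfl

theorem dE_univ_mul (a : A1) : dE Set.univ * a = a := by
  refine A1.ext (fun k => ?_)
  rw [A1.c_mul, dE_univ_apply, one_mul]

theorem mul_dE_univ (a : A1) : a * dE Set.univ = a := by
  refine A1.ext (fun k => ?_)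
  rw [A1.c_mul, dE_univ_apply, mul_one]

theorem dE_union {E F : Set XX} (h : Disjoint E F) : dE (E ∪ F) = dE E + dE F := by
  refine A1.ext (fun k => ?_)
  rw [A1.c_add, dE_apply, dE_apply, dE_apply]
  ext f ω
  rw [add_apply, PiLp.add_apply, diagOp_apply, diagOp_apply, diagOp_apply]
  by_cases h1 : kap ω ∈ E
  · have h2 : kap ω ∉ F := Set.disjoint_left.1 h h1
    rw [ind_of_mem h1, ind_of_notMem h2, ind_of_mem (Set.mem_union_left _ h1)]; ring
  · by_cases h2 : kap ω ∈ F
    · rw [ind_of_mem h2, ind_of_notMem h1, ind_of_mem (Set.mem_union_right _ h2)]; ring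
    · rw [ind_of_notMem h2, ind_of_notMem h1, ind_of_notMem (by simp [h1, h2])]; ring

theorem dE_compl (E : Set XX) : dE E + dE Eᶜ = dE Set.univ := by
  rw [← dE_union (disjoint_compl_right), Set.union_compl_self]

theorem dE_conj (s : Option (Fin 3)) (E : Set XX) (k : ℕ) :
    dE (act s ⁻¹' E) k = Ps s k * dE E k * Ps s k := by
  rw [dE_apply, dE_apply, Ps_apply]
  ext f ω
  show ind (act s ⁻¹' E) (kap ω) * f ω
    = ind E (kap (actO s ω)) * f (actO s (actO s ω))
  rw [actO_invol, kap_act]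
  rfl

def GG : Set A1 := {g | ∃ E, FL E ∧ ∃ A A' : Option (Option (Fin 3)), g = elt A * dE E * elt A'}

theorem countable_GG : GG.Countable := by
  have : GG = (fun p : Set XX × (Option (Option (Fin 3)) × Option (Option (Fin 3))) =>
      elt p.2.1 * dE p.1 * elt p.2.2) '' ({E | FL E} ×ˢ Set.univ) := by
    ext g
    constructor
    · rintro ⟨E, hE, A, A', rfl⟩
      exact ⟨(E, (A, A')), ⟨hE, trivial⟩, rfl⟩
    · rintro ⟨⟨E, ⟨A, A'⟩⟩, ⟨hE, -⟩, rfl⟩
      exact ⟨E, hE, A, A', rfl⟩
  rw [this]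
  exact (countable_FL.prod Set.countable_univ).image _

noncomputable def DD : Submodule ℂ A1 := Submodule.span ℂ GG

theorem mem_DD {E : Set XX} (hE : FL E) (A A' : Option (Option (Fin 3))) :
    elt A * dE E * elt A' ∈ DD := Submodule.subset_span ⟨E, hE, A, A', rfl⟩

theorem dE_mem {E : Set XX} (hE : FL E) : dE E ∈ DD := by
  have := mem_DD hE none none
  simp only [elt] at this
  rwa [dE_univ_mul, mul_dE_univ] at this

theorem Ps_dE_mem {E : Set XX} (hE : FL E) (s : Option (Fin 3)) : Ps s * dE E ∈ DD := by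
  have := mem_DD hE (some s) none
  simp only [elt] at this
  rwa [mul_dE_univ] at this

theorem dE_Ps_mem {E : Set XX} (hE : FL E) (s : Option (Fin 3)) : dE E * Ps s ∈ DD := by
  have := mem_DD hE none (some s)
  simp only [elt] at this
  rwa [dE_univ_mul] at this

theorem Ps_mem (s : Option (Fin 3)) : Ps s ∈ DD := by
  have := Ps_dE_mem FL.univ s
  rwa [mul_dE_univ] at this

theorem gen_mem (f : Option (Option (Option (Fin 3)))) : gen f ∈ DD := by
  match f with
  | none => exact dE_mem FL_WW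
  | some none => exact dE_mem FL.univ
  | some (some s) => exact Ps_mem s

theorem gen_norm_le (f : Option (Option (Option (Fin 3)))) (k : ℕ) : ‖gen f k‖ ≤ 1 := by
  match f with
  | none => exact diagOp_norm_le _ (fun ω => ind_norm_le _ _)
  | some none => exact diagOp_norm_le _ (fun ω => ind_norm_le _ _)
  | some (some s) => exact permOp_norm_le _ (actO_invol s)

end Pool.Agent.MP3437a9
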