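import Mathlib

set_option autoImplicit false
set_option linter.unusedVariables false
set_option linter.unusedSectionVars false

namespace Pool.Agent.MP3437a9

/-- One-sided infinite strings with two bits per site. -/
abbrev Str := ℕ → ZMod 2 × ZMod 2

/-- Pairs of strings. -/
abbrev XX := Str × Str

/-- The three local additive maps on strings. -/
def Lm : Fin 3 → Str → Str
  | 0, χ => χ
  | 1, χ => fun j => ((χ (j + 1)).1, 0)
  | 2, χ => fun j => ((χ j).2, (χ j).2)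

/-- The four involutions: the swap and the three shears. -/
def act : Option (Fin 3) → XX → XX
  | none, κ => (κ.2, κ.1)
  | some T, κ => (κ.1, κ.2 + Lm T κ.1)

/-- Finite-level sets. -/
def FL (E : Set XX) : Prop :=
  ∃ N : ℕ, ∀ κ κ' : XX, (∀ j < N, κ.1 j = κ'.1 j ∧ κ.2 j = κ'.2 j) → (κ ∈ E ↔ κ' ∈ E)

theorem FL.union {E F : Set XX} (hE : FL E) (hF : FL F) : FL (E ∪ F) := by
  obtain ⟨N, hN⟩ := hE
  obtain ⟨M, hM⟩ := hF
  refine ⟨max N M, fun κ κ' h => ?_⟩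
  have h1 := hN κ κ' (fun j hj => h j (lt_of_lt_of_le hj (le_max_left _ _)))
  have h2 := hM κ κ' (fun j hj => h j (lt_of_lt_of_le hj (le_max_right _ _)))
  rw [Set.mem_union, Set.mem_union, h1, h2]

theorem FL.diff {E F : Set XX} (hE : FL E) (hF : FL F) : FL (E \ F) := by
  obtain ⟨N, hN⟩ := hE
  obtain ⟨M, hM⟩ := hF
  refine ⟨max N M, fun κ κ' h => ?_⟩
  have h1 := hN κ κ' (fun j hj => h j (lt_of_lt_of_le hj (le_max_left _ _)))
  have h2 := hM κ κ' (fun j hj => h j (lt_of_lt_of_le hj (le_max_right _ _)))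
  rw [Set.mem_sdiff, Set.mem_sdiff, h1, h2]

theorem FL.univ : FL (Set.univ : Set XX) := ⟨0, fun κ κ' h => by simp⟩

theorem FL.compl {E : Set XX} (hE : FL E) : FL Eᶜ := by
  have := FL.univ.diff hE
  rwa [Set.compl_eq_univ_sdiff]

theorem FL.preimage_act {E : Set XX} (hE : FL E) (s : Option (Fin 3)) : FL (act s ⁻¹' E) := by
  obtain ⟨N, hN⟩ := hE
  refine ⟨N + 1, fun κ κ' h => ?_⟩
  refine hN _ _ (fun j hj => ?_)
  obtain ⟨h1, h2⟩ := h j (by omega)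
  obtain ⟨h3, h4⟩ := h (j + 1) (by omega)
  match s with
  | none => exact ⟨h2, h1⟩
  | some 0 => exact ⟨h1, by simp [act, Lm, h1, h2]⟩
  | some 1 => exact ⟨h1, by simp [act, Lm, h2, h3]⟩
  | some 2 => exact ⟨h1, by simp [act, Lm, h1, h2]⟩

theorem FL.preimage_add {E : Set XX} (hE : FL E) (c : XX) : FL ((fun κ => κ + c) ⁻¹' E) := by
  obtain ⟨N, hN⟩ := hE
  refine ⟨N, fun κ κ' h => ?_⟩
  refine hN _ _ (fun j hj => ?_)
  obtain ⟨h1, h2⟩ := h j hj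
  exact ⟨by simp [h1], by simp [h2]⟩

theorem z2 (a b : ZMod 2) : a + b + b = a := by
  revert a b; decide

theorem z2ne (a : ZMod 2) : a ≠ 1 ↔ a = 0 := by
  revert a; decide

/-- The event at site `j`. -/
def Ev (j : ℕ) (χ : Str) : Prop := (χ j).1 = 1 ∨ (1 ≤ j ∧ (χ (j - 1)).2 = 1)

/-- No event before `j`. -/
def Nb (j : ℕ) (χ : Str) : Prop := ∀ i < j, ¬ Ev i χ

/-- The first event is at `j`. -/
def Fv (j : ℕ) (χ : Str) : Prop := Ev j χ ∧ Nb j χ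

theorem Ev_congr {N : ℕ} {χ χ' : Str} (h : ∀ j < N, χ j = χ' j) {j : ℕ} (hj : j < N) :
    Ev j χ ↔ Ev j χ' := by
  unfold Ev
  rw [h j hj, h (j - 1) (by omega)]

theorem Nb_congr {N : ℕ} {χ χ' : Str} (h : ∀ j < N, χ j = χ' j) {j : ℕ} (hj : j ≤ N) :
    Nb j χ ↔ Nb j χ' := by
  unfold Nb
  constructor
  · intro H i hi
    rw [← Ev_congr h (lt_of_lt_of_le hi hj)]; exact H i hi
  · intro H i hi
    rw [Ev_congr h (lt_of_lt_of_le hi hj)]; exact H i hi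

theorem Fv_congr {N : ℕ} {χ χ' : Str} (h : ∀ j < N, χ j = χ' j) {j : ℕ} (hj : j < N) :
    Fv j χ ↔ Fv j χ' := by
  unfold Fv
  rw [Ev_congr h hj, Nb_congr h hj.le]

theorem Fv_unique {i j : ℕ} {χ : Str} (h : Fv i χ) (h' : Fv j χ) : i = j := by
  rcases lt_trichotomy i j with hlt | heq | hgt
  · exact absurd h.1 (h'.2 i hlt)
  · exact heq
  · exact absurd h'.1 (h.2 j hgt)

theorem Nb_succ {j : ℕ} {χ : Str} : Nb (j + 1) χ ↔ Nb j χ ∧ ¬ Ev j χ := by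
  constructor
  · intro h
    exact ⟨fun i hi => h i (by omega), h j (by omega)⟩
  · rintro ⟨h1, h2⟩ i hi
    rcases Nat.lt_succ_iff_lt_or_eq.1 hi with h | h
    · exact h1 i h
    · rw [h]; exact h2

theorem Nb_mono {i j : ℕ} {χ : Str} (h : Nb j χ) (hij : i ≤ j) : Nb i χ :=
  fun k hk => h k (lt_of_lt_of_le hk hij)

/-- If `¬ Nb j χ` there is a first event before `j`. -/
theorem exists_Fv {j : ℕ} {χ : Str} (h : ¬ Nb j χ) : ∃ i < j, Fv i χ := by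
  classical
  unfold Nb at h
  push Not at h
  obtain ⟨i, hi, hev⟩ := h
  have hex : ∃ i, Ev i χ := ⟨i, hev⟩
  refine ⟨Nat.find hex, lt_of_le_of_lt (Nat.find_min' hex hev) hi, Nat.find_spec hex, ?_⟩
  intro k hk
  exact Nat.find_min hex hk

theorem zero_of_Nb {j : ℕ} {χ : Str} (h : Nb j χ) {i : ℕ} (hi : i < j) : (χ i).1 = 0 := by
  have := h i hi
  unfold Ev at this
  push Not at this
  exact (z2ne _).1 this.1

theorem zero2_of_Nb {j : ℕ} {χ : Str} (h : Nb j χ) {i : ℕ} (hi : i + 1 < j) : (χ i).2 = 0 := by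
  have := h (i + 1) hi
  unfold Ev at this
  push Not at this
  have h2 := this.2 (by omega)
  rw [Nat.add_sub_cancel] at h2
  exact (z2ne _).1 h2

theorem Nb_of_zero {j : ℕ} {χ : Str} (h1 : ∀ i < j, (χ i).1 = 0)
    (h2 : ∀ i, i + 1 < j → (χ i).2 = 0) : Nb j χ := by
  intro i hi hev
  rcases hev with h | ⟨h3, h4⟩
  · rw [h1 i hi] at h; exact absurd h (by decide)
  · rw [h2 (i - 1) (by omega)] at h4; exact absurd h4 (by decide)

def P0 (n : ℕ) : Set XX := {κ | ∃ j ≤ n, Fv j κ.1 ∧ Fv j κ.2}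
def P1 (n : ℕ) : Set XX := {κ | ∃ j ≤ n, Fv j κ.1 ∧ Nb (j + 1) κ.2}
def P2 (n : ℕ) : Set XX := {κ | ∃ j ≤ n, Fv j κ.2 ∧ Nb (j + 1) κ.1}
def S1 (n : ℕ) : Set XX := {κ | ∃ j ≤ n, 1 ≤ j ∧ Fv j κ.1 ∧ (κ.1 j).1 = 1 ∧ Nb j κ.2}
def S2 (n : ℕ) : Set XX := {κ | ∃ j ≤ n, 1 ≤ j ∧ Fv j κ.1 ∧ (κ.1 j).1 = 0 ∧ Nb j κ.2}
def WW : Set XX := {κ | (κ.1 0).1 = 1}
def RR (n : ℕ) : Set XX := {κ | (κ.1 (n - 1)).2 = 1}

theorem FL_of_level {E : Set XX} (N : ℕ)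
    (h : ∀ κ κ' : XX, (∀ j < N, κ.1 j = κ'.1 j) → (∀ j < N, κ.2 j = κ'.2 j) → κ ∈ E → κ' ∈ E) :
    FL E :=
  ⟨N, fun κ κ' hk => ⟨h κ κ' (fun j hj => (hk j hj).1) (fun j hj => (hk j hj).2),
    h κ' κ (fun j hj => (hk j hj).1.symm) (fun j hj => (hk j hj).2.symm)⟩⟩

theorem FL_P0 (n : ℕ) : FL (P0 n) := by
  refine FL_of_level (n + 1) (fun κ κ' h1 h2 => ?_)
  rintro ⟨j, hj, a, b⟩
  exact ⟨j, hj, (Fv_congr h1 (by omega)).1 a, (Fv_congr h2 (by omega)).1 b⟩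

theorem FL_P1 (n : ℕ) : FL (P1 n) := by
  refine FL_of_level (n + 1) (fun κ κ' h1 h2 => ?_)
  rintro ⟨j, hj, a, b⟩
  exact ⟨j, hj, (Fv_congr h1 (by omega)).1 a, (Nb_congr h2 (by omega)).1 b⟩

theorem FL_P2 (n : ℕ) : FL (P2 n) := by
  refine FL_of_level (n + 1) (fun κ κ' h1 h2 => ?_)
  rintro ⟨j, hj, a, b⟩
  exact ⟨j, hj, (Fv_congr h2 (by omega)).1 a, (Nb_congr h1 (by omega)).1 b⟩

theorem FL_S1 (n : ℕ) : FL (S1 n) := by
  refine FL_of_level (n + 1) (fun κ κ' h1 h2 => ?_)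
  rintro ⟨j, hj, hj1, a, b, c⟩
  exact ⟨j, hj, hj1, (Fv_congr h1 (by omega)).1 a, by rw [← h1 j (by omega)]; exact b,
    (Nb_congr h2 (by omega)).1 c⟩

theorem FL_S2 (n : ℕ) : FL (S2 n) := by
  refine FL_of_level (n + 1) (fun κ κ' h1 h2 => ?_)
  rintro ⟨j, hj, hj1, a, b, c⟩
  exact ⟨j, hj, hj1, (Fv_congr h1 (by omega)).1 a, by rw [← h1 j (by omega)]; exact b,
    (Nb_congr h2 (by omega)).1 c⟩

theorem FL_WW : FL WW := by
  refine FL_of_level 1 (fun κ κ' h1 h2 => ?_)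
  intro h
  show (κ'.1 0).1 = 1
  rw [← h1 0 (by omega)]; exact h

theorem FL_RR (n : ℕ) : FL (RR n) := by
  refine FL_of_level (n + 1) (fun κ κ' h1 h2 => ?_)
  intro h
  show (κ'.1 (n - 1)).2 = 1
  rw [← h1 (n - 1) (by omega)]; exact h

theorem union_eq (n : ℕ) : P0 n ∪ P1 n = (S1 n ∪ S2 n) ∪ WW := by
  ext κ
  constructor
  · intro h
    have h' : ∃ j ≤ n, Fv j κ.1 ∧ Nb j κ.2 := by
      rcases h with ⟨j, hj, a, b⟩ | ⟨j, hj, a, b⟩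
      · exact ⟨j, hj, a, b.2⟩
      · exact ⟨j, hj, a, Nb_mono b (by omega)⟩
    obtain ⟨j, hj, a, b⟩ := h'
    by_cases hj0 : j = 0
    · subst hj0
      right
      rcases a.1 with h1 | ⟨h1, -⟩
      · exact h1
      · omega
    · left
      by_cases h1 : (κ.1 j).1 = 1
      · left; exact ⟨j, hj, by omega, a, h1, b⟩
      · right; exact ⟨j, hj, by omega, a, (z2ne _).1 h1, b⟩
  · intro h
    have h' : ∃ j ≤ n, Fv j κ.1 ∧ Nb j κ.2 := by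
      rcases h with (⟨j, hj, -, a, -, b⟩ | ⟨j, hj, -, a, -, b⟩) | h0
      · exact ⟨j, hj, a, b⟩
      · exact ⟨j, hj, a, b⟩
      · exact ⟨0, by omega, ⟨Or.inl h0, fun i hi => by omega⟩, fun i hi => by omega⟩
    obtain ⟨j, hj, a, b⟩ := h'
    by_cases h1 : Ev j κ.2
    · left; exact ⟨j, hj, a, h1, b⟩
    · right; exact ⟨j, hj, a, Nb_succ.2 ⟨b, h1⟩⟩

theorem disj_P0P1 (n : ℕ) : Disjoint (P0 n) (P1 n) := by
  rw [Set.disjoint_left]
  rintro κ ⟨j, hj, a, b⟩ ⟨i, hi, c, d⟩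
  have := Fv_unique a c
  subst this
  exact d j (by omega) b.1

theorem disj_P01P2 (n : ℕ) : Disjoint (P0 n ∪ P1 n) (P2 n) := by
  rw [Set.disjoint_left]
  rintro κ h ⟨i, hi, c, d⟩
  have h' : ∃ j ≤ n, Fv j κ.1 ∧ Nb j κ.2 := by
    rcases h with ⟨j, hj, a, b⟩ | ⟨j, hj, a, b⟩
    · exact ⟨j, hj, a, b.2⟩
    · exact ⟨j, hj, a, Nb_mono b (by omega)⟩
  obtain ⟨j, hj, a, b⟩ := h'
  by_cases hij : i < j
  · exact b i hij c.1
  · exact d j (by omega) a.1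

theorem disj_S1S2 (n : ℕ) : Disjoint (S1 n) (S2 n) := by
  rw [Set.disjoint_left]
  rintro κ ⟨j, hj, -, a, b, -⟩ ⟨i, hi, -, c, d, -⟩
  have := Fv_unique a c
  subst this
  rw [b] at d
  exact absurd d (by decide)

theorem disj_S12WW (n : ℕ) : Disjoint (S1 n ∪ S2 n) WW := by
  rw [Set.disjoint_left]
  intro κ h h0
  have h' : ∃ j, 1 ≤ j ∧ Fv j κ.1 := by
    rcases h with ⟨j, hj, h1, a, -, -⟩ | ⟨j, hj, h1, a, -, -⟩
    · exact ⟨j, h1, a⟩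
    · exact ⟨j, h1, a⟩
  obtain ⟨j, h1, a⟩ := h'
  exact a.2 0 (by omega) (Or.inl h0)

theorem swap_P2 (n : ℕ) : act none ⁻¹' (P2 n) = P1 n := by
  ext κ
  rfl

theorem a0_P1 (n : ℕ) : act (some 0) ⁻¹' (P1 n) ⊆ P0 n := by
  rintro ⟨χ, ψ⟩ ⟨j, hj, a, b⟩
  refine ⟨j, hj, a, ?_⟩
  change Fv j χ at a
  change Nb (j + 1) (ψ + χ) at b
  show Fv j ψ
  have e : ψ = (ψ + χ) + χ := by
    funext i
    refine Prod.ext ?_ ?_
    · exact (z2 _ _).symm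
    · exact (z2 _ _).symm
  have hb1 : ∀ i < j + 1, ((ψ + χ) i).1 = 0 := fun i hi => zero_of_Nb b hi
  have hb2 : ∀ i, i + 1 < j + 1 → ((ψ + χ) i).2 = 0 := fun i hi => zero2_of_Nb b hi
  constructor
  · rcases a.1 with h | ⟨h3, h4⟩
    · left
      rw [e]
      show ((ψ + χ) j).1 + (χ j).1 = 1
      rw [hb1 j (by omega), h]; decide
    · right
      refine ⟨h3, ?_⟩
      rw [e]
      show ((ψ + χ) (j - 1)).2 + (χ (j - 1)).2 = 1
      rw [hb2 (j - 1) (by omega), h4]; decide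
  · rw [e]
    refine Nb_of_zero (fun i hi => ?_) (fun i hi => ?_)
    · show ((ψ + χ) i).1 + (χ i).1 = 0
      rw [hb1 i (by omega), zero_of_Nb a.2 hi]; decide
    · show ((ψ + χ) i).2 + (χ i).2 = 0
      rw [hb2 i (by omega), zero2_of_Nb a.2 hi]; decide

theorem a1_S1 (n : ℕ) : act (some 1) ⁻¹' (S1 n) ⊆ P2 n := by
  rintro ⟨χ, ψ⟩ ⟨j, hj, hj1, a, h1, b⟩
  change Fv j χ at a
  change (χ j).1 = 1 at h1
  change Nb j (ψ + Lm 1 χ) at b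
  obtain ⟨i, rfl⟩ : ∃ i, j = i + 1 := ⟨j - 1, by omega⟩
  refine ⟨i, by omega, ?_, a.2⟩
  show Fv i ψ
  have e : ψ = (ψ + Lm 1 χ) + Lm 1 χ := by
    funext i
    refine Prod.ext ?_ ?_
    · exact (z2 _ _).symm
    · exact (z2 _ _).symm
  have hb1 : ∀ k < i + 1, ((ψ + Lm 1 χ) k).1 = 0 := fun k hk => zero_of_Nb b hk
  have hb2 : ∀ k, k + 1 < i + 1 → ((ψ + Lm 1 χ) k).2 = 0 := fun k hk => zero2_of_Nb b hk
  constructor
  · left
    rw [e]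
    show ((ψ + Lm 1 χ) i).1 + (χ (i + 1)).1 = 1
    rw [hb1 i (by omega), h1]; decide
  · rw [e]
    refine Nb_of_zero (fun k hk => ?_) (fun k hk => ?_)
    · show ((ψ + Lm 1 χ) k).1 + (χ (k + 1)).1 = 0
      rw [hb1 k (by omega), zero_of_Nb a.2 (by omega)]; decide
    · show ((ψ + Lm 1 χ) k).2 + 0 = 0
      rw [hb2 k (by omega)]; decide

theorem a2_S2 (n : ℕ) : act (some 2) ⁻¹' (S2 n) ⊆ P2 n := by
  rintro ⟨χ, ψ⟩ ⟨j, hj, hj1, a, h1, b⟩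
  change Fv j χ at a
  change (χ j).1 = 0 at h1
  change Nb j (ψ + Lm 2 χ) at b
  obtain ⟨i, rfl⟩ : ∃ i, j = i + 1 := ⟨j - 1, by omega⟩
  refine ⟨i, by omega, ?_, a.2⟩
  show Fv i ψ
  have e : ψ = (ψ + Lm 2 χ) + Lm 2 χ := by
    funext i
    refine Prod.ext ?_ ?_
    · exact (z2 _ _).symm
    · exact (z2 _ _).symm
  have hb1 : ∀ k < i + 1, ((ψ + Lm 2 χ) k).1 = 0 := fun k hk => zero_of_Nb b hk
  have hb2 : ∀ k, k + 1 < i + 1 → ((ψ + Lm 2 χ) k).2 = 0 := fun k hk => zero2_of_Nb b hk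
  have hr : (χ i).2 = 1 := by
    rcases a.1 with h | ⟨-, h4⟩
    · rw [h1] at h; exact absurd h (by decide)
    · exact h4
  constructor
  · left
    rw [e]
    show ((ψ + Lm 2 χ) i).1 + (χ i).2 = 1
    rw [hb1 i (by omega), hr]; decide
  · rw [e]
    refine Nb_of_zero (fun k hk => ?_) (fun k hk => ?_)
    · show ((ψ + Lm 2 χ) k).1 + (χ k).2 = 0
      rw [hb1 k (by omega), zero2_of_Nb a.2 (by omega)]; decide
    · show ((ψ + Lm 2 χ) k).2 + (χ k).2 = 0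
      rw [hb2 k (by omega), zero2_of_Nb a.2 (by omega)]; decide

theorem disj_a (n : ℕ) : Disjoint (act (some 1) ⁻¹' (S1 n)) (act (some 2) ⁻¹' (S2 n)) := by
  rw [Set.disjoint_left]
  rintro ⟨χ, ψ⟩ ⟨j, hj, -, a, b, -⟩ ⟨i, hi, -, c, d, -⟩
  have := Fv_unique a c
  subst this
  change (χ j).1 = 1 at b
  change (χ j).1 = 0 at d
  rw [b] at d
  exact absurd d (by decide)

theorem RR_sub (n : ℕ) (hn : 1 ≤ n) : RR n ⊆ (P0 n ∪ P1 n) ∪ P2 n := by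
  rintro ⟨χ, ψ⟩ h
  change (χ (n - 1)).2 = 1 at h
  have hev : Ev n χ := Or.inr ⟨hn, h⟩
  have hnb : ¬ Nb (n + 1) χ := fun h' => h' n (by omega) hev
  obtain ⟨j, hj, hF⟩ := exists_Fv hnb
  by_cases h1 : Nb j ψ
  · left
    by_cases h2 : Ev j ψ
    · left; exact ⟨j, by omega, hF, h2, h1⟩
    · right; exact ⟨j, by omega, hF, Nb_succ.2 ⟨h1, h2⟩⟩
  · right
    obtain ⟨i, hi, hG⟩ := exists_Fv h1
    exact ⟨i, by omega, hG, Nb_mono hF.2 (by omega)⟩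

/-- The combinatorial contradiction. -/
theorem comb (n : ℕ) (hn : 1 ≤ n) (μ : Set XX → ℝ) (ε δ : ℝ)
    (hadd : ∀ E F, FL E → FL F → Disjoint E F → μ (E ∪ F) = μ E + μ F)
    (hpos : ∀ E, FL E → -δ ≤ μ E)
    (hinv : ∀ s E, FL E → |μ (act s ⁻¹' E) - μ E| ≤ ε)
    (hW : μ WW ≤ 2 * δ) : μ (RR n) ≤ 12 * ε + 12 * δ := by
  have mono : ∀ E F, FL E → FL F → E ⊆ F → μ E ≤ μ F + δ := by
    intro E F hE hF hEF
    have h1 := hadd E (F \ E) hE (hF.diff hE) Set.disjoint_sdiff_right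
    rw [Set.union_sdiff_cancel hEF] at h1
    have h2 := hpos _ (hF.diff hE)
    linarith
  have i1 := abs_le.1 (hinv (some 1) (S1 n) (FL_S1 n))
  have i2 := abs_le.1 (hinv (some 2) (S2 n) (FL_S2 n))
  have i3 := abs_le.1 (hinv none (P2 n) (FL_P2 n))
  have i4 := abs_le.1 (hinv (some 0) (P1 n) (FL_P1 n))
  rw [swap_P2] at i3
  have u1 := hadd _ _ (FL_P0 n) (FL_P1 n) (disj_P0P1 n)
  have u2 := hadd _ _ (FL_S1 n) (FL_S2 n) (disj_S1S2 n)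
  have u3 := hadd _ _ ((FL_S1 n).union (FL_S2 n)) FL_WW (disj_S12WW n)
  rw [← union_eq, u1, u2] at u3
  have u4 := hadd _ _ ((FL_S1 n).preimage_act (some 1)) ((FL_S2 n).preimage_act (some 2))
    (disj_a n)
  have u5 := mono _ _ (((FL_S1 n).preimage_act (some 1)).union ((FL_S2 n).preimage_act (some 2)))
    (FL_P2 n) (Set.union_subset (a1_S1 n) (a2_S2 n))
  have u6 := mono _ _ ((FL_P1 n).preimage_act (some 0)) (FL_P0 n) (a0_P1 n)
  have u7 := hadd _ _ ((FL_P0 n).union (FL_P1 n)) (FL_P2 n) (disj_P01P2 n)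
  have u8 := mono _ _ (FL_RR n) (((FL_P0 n).union (FL_P1 n)).union (FL_P2 n)) (RR_sub n hn)
  rw [u7, u1] at u8
  linarith [i1.1, i1.2, i2.1, i2.2, i3.1, i3.2, i4.1, i4.2]

end Pool.Agent.MP3437a9
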