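import Mathlib

set_option autoImplicit false
set_option linter.unusedVariables false
set_option linter.unusedSectionVars false

open scoped InnerProductSpace ComplexConjugate

namespace Pool.Agent.MP3437a9

section Vec

variable {H : Type*} [NormedAddCommGroup H] [InnerProductSpace ℂ H]

/-- From `‖τ ± η‖ ≤ (1+2t²)‖η‖` deduce `‖τ‖ ≤ 3t‖η‖`. -/
theorem est_par (t : ℝ) (ht : 0 ≤ t) (ht1 : t ≤ 1) (τ η : H)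
    (h1 : ‖τ + η‖ ≤ (1 + 2 * t ^ 2) * ‖η‖) (h2 : ‖τ - η‖ ≤ (1 + 2 * t ^ 2) * ‖η‖) :
    ‖τ‖ ≤ 3 * t * ‖η‖ := by
  have hpar := parallelogram_law_with_norm ℂ τ η
  have ha : ‖τ + η‖ * ‖τ + η‖ ≤ ((1 + 2 * t ^ 2) * ‖η‖) * ((1 + 2 * t ^ 2) * ‖η‖) :=
    mul_self_le_mul_self (norm_nonneg _) h1
  have hb : ‖τ - η‖ * ‖τ - η‖ ≤ ((1 + 2 * t ^ 2) * ‖η‖) * ((1 + 2 * t ^ 2) * ‖η‖) :=
    mul_self_le_mul_self (norm_nonneg _) h2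
  have hη : 0 ≤ ‖η‖ := norm_nonneg _
  have hsq : ‖τ‖ ^ 2 ≤ (3 * t * ‖η‖) ^ 2 := by
    have h3 : t ^ 4 ≤ t ^ 2 := by
      have : t ^ 2 ≤ 1 := by nlinarith
      nlinarith [sq_nonneg t, sq_nonneg (t ^ 2)]
    have h4 : 0 ≤ ‖η‖ ^ 2 := sq_nonneg _
    have h5 : t ^ 4 * ‖η‖ ^ 2 ≤ t ^ 2 * ‖η‖ ^ 2 := mul_le_mul_of_nonneg_right h3 h4
    have h6 : 0 ≤ t ^ 2 * ‖η‖ ^ 2 := by positivity
    nlinarith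
  exact (abs_le_of_sq_le_sq' hsq (by positivity)).2

/-- A unimodular rotation. -/
theorem exists_rot (z : ℂ) : ∃ θ : ℂ, ‖θ‖ = 1 ∧ (θ * z).re = ‖z‖ := by
  by_cases hz : z = 0
  · exact ⟨1, by simp, by simp [hz]⟩
  · refine ⟨conj z / ‖z‖, ?_, ?_⟩
    · have : ‖z‖ ≠ 0 := norm_ne_zero_iff.2 hz
      rw [norm_div, RCLike.norm_conj, Complex.norm_real, norm_norm, div_self this]
    · have h0 : (‖z‖ : ℂ) ≠ 0 := by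
        exact_mod_cast norm_ne_zero_iff.2 hz
      have : conj z / ‖z‖ * z = (‖z‖ : ℂ) := by
        field_simp
        rw [mul_comm, Complex.mul_conj, Complex.normSq_eq_norm_sq]
        push_cast
        ring
      rw [this, Complex.ofReal_re]

/-- Estimate (b). -/
theorem est_b (t : ℝ) (ht : 0 < t) (ht1 : t ≤ 1) (T R : H →L[ℂ] H) (ξ : H)
    (hR : ‖R ξ - ξ‖ ≤ t ^ 2 * ‖ξ‖)
    (h : ∀ θ : ℂ, ‖θ‖ = 1 → ∀ α : ℝ, 0 ≤ α →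
      ‖θ • T + (α : ℂ) • R‖ ≤ (1 + t ^ 2) * √(1 + α ^ 2)) :
    ‖⟪ξ, T ξ⟫_ℂ‖ ≤ 3 * t * ‖ξ‖ ^ 2 := by
  obtain ⟨θ, hθ, hre⟩ := exists_rot ⟪ξ, T ξ⟫_ℂ
  set α : ℝ := 1 / (2 * t) with hα
  have hα0 : 0 < α := by positivity
  have h1 := h θ hθ α hα0.le
  have hs : √(1 + α ^ 2) ≤ α + t := by
    apply Real.sqrt_le_iff.2
    refine ⟨by positivity, ?_⟩
    have : α * t = 1 / 2 := by rw [hα]; field_simp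
    nlinarith [sq_nonneg t]
  have h2 : RCLike.re ⟪ξ, (θ • T + (α : ℂ) • R) ξ⟫_ℂ ≤ (1 + t ^ 2) * (α + t) * ‖ξ‖ ^ 2 := by
    calc RCLike.re ⟪ξ, (θ • T + (α : ℂ) • R) ξ⟫_ℂ
        ≤ ‖⟪ξ, (θ • T + (α : ℂ) • R) ξ⟫_ℂ‖ := RCLike.re_le_norm _
      _ ≤ ‖ξ‖ * ‖(θ • T + (α : ℂ) • R) ξ‖ := norm_inner_le_norm _ _
      _ ≤ ‖ξ‖ * (‖θ • T + (α : ℂ) • R‖ * ‖ξ‖) := by
          gcongr; exact ContinuousLinearMap.le_opNorm _ _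
      _ ≤ ‖ξ‖ * (((1 + t ^ 2) * (α + t)) * ‖ξ‖) := by
          gcongr
          exact h1.trans (by gcongr)
      _ = (1 + t ^ 2) * (α + t) * ‖ξ‖ ^ 2 := by ring
  have h3 : RCLike.re ⟪ξ, (θ • T + (α : ℂ) • R) ξ⟫_ℂ
      = ‖⟪ξ, T ξ⟫_ℂ‖ + α * RCLike.re ⟪ξ, R ξ⟫_ℂ := by
    rw [add_apply, smul_apply,
      smul_apply, inner_add_right, inner_smul_right, inner_smul_right, map_add]
    congr 1
    simp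
  have h4 : ‖ξ‖ ^ 2 - t ^ 2 * ‖ξ‖ ^ 2 ≤ RCLike.re ⟪ξ, R ξ⟫_ℂ := by
    have e1 : ⟪ξ, R ξ⟫_ℂ = ⟪ξ, ξ⟫_ℂ + ⟪ξ, R ξ - ξ⟫_ℂ := by
      rw [← inner_add_right]; congr 1; abel
    have e2 : ‖⟪ξ, R ξ - ξ⟫_ℂ‖ ≤ t ^ 2 * ‖ξ‖ ^ 2 := by
      calc ‖⟪ξ, R ξ - ξ⟫_ℂ‖ ≤ ‖ξ‖ * ‖R ξ - ξ‖ := norm_inner_le_norm _ _
        _ ≤ ‖ξ‖ * (t ^ 2 * ‖ξ‖) := by gcongr
        _ = _ := by ring
    have e3 := RCLike.abs_re_le_norm ⟪ξ, R ξ - ξ⟫_ℂ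
    have e4 := neg_abs_le (RCLike.re ⟪ξ, R ξ - ξ⟫_ℂ)
    rw [e1, map_add, inner_self_eq_norm_sq (𝕜 := ℂ)]
    linarith
  have h5 : α * (‖ξ‖ ^ 2 - t ^ 2 * ‖ξ‖ ^ 2) ≤ α * RCLike.re ⟪ξ, R ξ⟫_ℂ :=
    mul_le_mul_of_nonneg_left h4 hα0.le
  have h6 : α * t = 1 / 2 := by rw [hα]; field_simp
  have h7 : ‖⟪ξ, T ξ⟫_ℂ‖ ≤ (1 + t ^ 2) * (α + t) * ‖ξ‖ ^ 2 - α * (‖ξ‖ ^ 2 - t ^ 2 * ‖ξ‖ ^ 2) := by
    linarith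
  have h8 : (1 + t ^ 2) * (α + t) * ‖ξ‖ ^ 2 - α * (‖ξ‖ ^ 2 - t ^ 2 * ‖ξ‖ ^ 2)
      = (t + t ^ 3 + 2 * t * (α * t)) * ‖ξ‖ ^ 2 := by ring
  rw [h8, h6] at h7
  have h9 : t ^ 3 ≤ t := by
    have : t ^ 2 ≤ 1 := by nlinarith
    nlinarith
  have h10 : t ^ 3 * ‖ξ‖ ^ 2 ≤ t * ‖ξ‖ ^ 2 := mul_le_mul_of_nonneg_right h9 (sq_nonneg _)
  nlinarith

end Vec

section Op

variable {H : Type*} [NormedAddCommGroup H] [InnerProductSpace ℂ H] [CompleteSpace H]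

theorem proj_orth (P : H →L[ℂ] H) (hP : P * P = P) (hPs : star P = P) (x y : H) :
    ⟪P x, (1 - P) y⟫_ℂ = 0 := by
  have h1 : ⟪P x, (1 - P) y⟫_ℂ = ⟪x, (star P) ((1 - P) y)⟫_ℂ := by
    rw [ContinuousLinearMap.star_eq_adjoint, ContinuousLinearMap.adjoint_inner_right]
  have h2 : P * (1 - P) = 0 := by rw [mul_sub, mul_one, hP, sub_self]
  rw [h1, hPs, ← mul_apply_eq_comp, h2]
  simp

theorem proj_pyth (P : H →L[ℂ] H) (hP : P * P = P) (hPs : star P = P) (x y : H) :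
    ‖P x + (1 - P) y‖ ^ 2 = ‖P x‖ ^ 2 + ‖(1 - P) y‖ ^ 2 := by
  have := norm_add_sq (𝕜 := ℂ) (P x) ((1 - P) y)
  rw [proj_orth P hP hPs] at this
  simpa using this

theorem proj_decomp (P : H →L[ℂ] H) (hP : P * P = P) (hPs : star P = P) (x : H) :
    ‖x‖ ^ 2 = ‖P x‖ ^ 2 + ‖(1 - P) x‖ ^ 2 := by
  rw [← proj_pyth P hP hPs]
  congr 2
  simp

theorem one_sub_idem (P : H →L[ℂ] H) (hP : P * P = P) : (1 - P) * (1 - P) = 1 - P := by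
  rw [mul_sub, sub_mul, sub_mul, hP]; simp

theorem one_sub_star (P : H →L[ℂ] H) (hPs : star P = P) : star (1 - P) = 1 - P := by
  rw [star_sub, star_one, hPs]

theorem proj_norm_le (P : H →L[ℂ] H) (hP : P * P = P) (hPs : star P = P) (x : H) :
    ‖P x‖ ≤ ‖x‖ := by
  have := proj_decomp P hP hPs x
  have h2 : ‖P x‖ ^ 2 ≤ ‖x‖ ^ 2 := by nlinarith [sq_nonneg ‖(1 - P) x‖]
  exact (abs_le_of_sq_le_sq' h2 (norm_nonneg _)).2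

/-- Diagonal corner. -/
theorem op_a (P : H →L[ℂ] H) (hP : P * P = P) (hPs : star P = P) (x : H →L[ℂ] H)
    (hx : ‖x‖ ≤ 1) (c : ℂ) (hc : ‖c‖ = 1) : ‖P * x * P + c • (1 - P)‖ ≤ 1 := by
  refine ContinuousLinearMap.opNorm_le_bound _ zero_le_one (fun ζ => ?_)
  have e : (P * x * P + c • (1 - P)) ζ = P (x (P ζ)) + (1 - P) (c • ζ) := by
    rw [add_apply, smul_apply, map_smul]
    rfl
  have h1 := proj_pyth P hP hPs (x (P ζ)) (c • ζ)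
  have h2 : ‖P (x (P ζ))‖ ≤ ‖P ζ‖ :=
    (proj_norm_le P hP hPs _).trans (by
      calc ‖x (P ζ)‖ ≤ ‖x‖ * ‖P ζ‖ := x.le_opNorm _
        _ ≤ 1 * ‖P ζ‖ := by gcongr
        _ = _ := one_mul _)
  have h3 : ‖(1 - P) (c • ζ)‖ = ‖(1 - P) ζ‖ := by rw [map_smul, norm_smul, hc, one_mul]
  have h4 := proj_decomp P hP hPs ζ
  rw [e, one_mul]
  have h5 : ‖P (x (P ζ)) + (1 - P) (c • ζ)‖ ^ 2 ≤ ‖ζ‖ ^ 2 := by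
    rw [h1, h3, h4]
    gcongr
  exact (abs_le_of_sq_le_sq' h5 (norm_nonneg _)).2

theorem cs2 (a b α : ℝ) (ha : 0 ≤ a) (hb : 0 ≤ b) (hα : 0 ≤ α) :
    a + α * b ≤ √(1 + α ^ 2) * √(a ^ 2 + b ^ 2) := by
  rw [← Real.sqrt_mul (by positivity)]
  apply Real.le_sqrt_of_sq_le
  nlinarith [sq_nonneg (α * a - b)]

/-- Off-diagonal corner against the left projection. -/
theorem op_b1 (P : H →L[ℂ] H) (hP : P * P = P) (hPs : star P = P) (x : H →L[ℂ] H)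
    (hx : ‖x‖ ≤ 1) (c : ℂ) (hc : ‖c‖ = 1) (α : ℝ) (hα : 0 ≤ α) :
    ‖c • (P * x * (1 - P)) + (α : ℂ) • P‖ ≤ √(1 + α ^ 2) := by
  refine ContinuousLinearMap.opNorm_le_bound _ (Real.sqrt_nonneg _) (fun ζ => ?_)
  have e : (c • (P * x * (1 - P)) + (α : ℂ) • P) ζ
      = c • P (x ((1 - P) ζ)) + (α : ℂ) • P ζ := rfl
  rw [e]
  have h4 := proj_decomp P hP hPs ζ
  calc ‖c • P (x ((1 - P) ζ)) + (α : ℂ) • P ζ‖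
      ≤ ‖c • P (x ((1 - P) ζ))‖ + ‖(α : ℂ) • P ζ‖ := norm_add_le _ _
    _ = ‖P (x ((1 - P) ζ))‖ + α * ‖P ζ‖ := by
        rw [norm_smul, norm_smul, hc, one_mul, Complex.norm_real, Real.norm_of_nonneg hα]
    _ ≤ ‖(1 - P) ζ‖ + α * ‖P ζ‖ := by
        gcongr
        exact (proj_norm_le P hP hPs _).trans (by
          calc ‖x ((1 - P) ζ)‖ ≤ ‖x‖ * ‖(1 - P) ζ‖ := x.le_opNorm _
            _ ≤ 1 * ‖(1 - P) ζ‖ := by gcongr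
            _ = _ := one_mul _)
    _ ≤ √(1 + α ^ 2) * √(‖(1 - P) ζ‖ ^ 2 + ‖P ζ‖ ^ 2) :=
        cs2 _ _ _ (norm_nonneg _) (norm_nonneg _) hα
    _ = √(1 + α ^ 2) * ‖ζ‖ := by
        rw [add_comm (‖(1 - P) ζ‖ ^ 2), ← h4, Real.sqrt_sq (norm_nonneg _)]

/-- Off-diagonal corner against the right projection. -/
theorem op_b2 (P : H →L[ℂ] H) (hP : P * P = P) (hPs : star P = P) (x : H →L[ℂ] H)
    (hx : ‖x‖ ≤ 1) (c : ℂ) (hc : ‖c‖ = 1) (α : ℝ) (hα : 0 ≤ α) :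
    ‖c • (P * x * (1 - P)) + (α : ℂ) • (1 - P)‖ ≤ √(1 + α ^ 2) := by
  refine ContinuousLinearMap.opNorm_le_bound _ (Real.sqrt_nonneg _) (fun ζ => ?_)
  have e : (c • (P * x * (1 - P)) + (α : ℂ) • (1 - P)) ζ
      = P (c • x ((1 - P) ζ)) + (1 - P) ((α : ℂ) • ζ) := by
    rw [add_apply, smul_apply,
      smul_apply, map_smul, map_smul]
    rfl
  have hq : ‖(1 - P) ζ‖ ≤ ‖ζ‖ :=
    proj_norm_le (1 - P) (one_sub_idem P hP) (one_sub_star P hPs) ζ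
  have h1 := proj_pyth P hP hPs (c • x ((1 - P) ζ)) ((α : ℂ) • ζ)
  have h2 : ‖P (c • x ((1 - P) ζ))‖ ≤ ‖(1 - P) ζ‖ :=
    (proj_norm_le P hP hPs _).trans (by
      calc ‖c • x ((1 - P) ζ)‖ = ‖x ((1 - P) ζ)‖ := by rw [norm_smul, hc, one_mul]
        _ ≤ ‖x‖ * ‖(1 - P) ζ‖ := x.le_opNorm _
        _ ≤ 1 * ‖(1 - P) ζ‖ := by gcongr
        _ = _ := one_mul _)
  have h3 : ‖(1 - P) ((α : ℂ) • ζ)‖ = α * ‖(1 - P) ζ‖ := by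
    rw [map_smul, norm_smul, Complex.norm_real, Real.norm_of_nonneg hα]
  rw [e]
  have h5 : ‖P (c • x ((1 - P) ζ)) + (1 - P) ((α : ℂ) • ζ)‖ ^ 2 ≤ (√(1 + α ^ 2) * ‖ζ‖) ^ 2 := by
    rw [h1, h3, mul_pow, mul_pow, Real.sq_sqrt (by positivity)]
    calc ‖P (c • x ((1 - P) ζ))‖ ^ 2 + α ^ 2 * ‖(1 - P) ζ‖ ^ 2
        ≤ ‖(1 - P) ζ‖ ^ 2 + α ^ 2 * ‖(1 - P) ζ‖ ^ 2 := by gcongr
      _ = (1 + α ^ 2) * ‖(1 - P) ζ‖ ^ 2 := by ring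
      _ ≤ (1 + α ^ 2) * ‖ζ‖ ^ 2 := by gcongr
  exact (abs_le_of_sq_le_sq' h5 (by positivity)).2

/-- Part (a) of the conjugation lemma: `T` almost kills `Q = 1 - P` from both sides. -/
theorem conj_a (t : ℝ) (ht : 0 ≤ t) (ht1 : t ≤ 1) (P T R : H →L[ℂ] H)
    (hPs : star P = P) (hP : P * P = P)
    (hR : ‖R - (1 - P)‖ ≤ t ^ 2)
    (h : ∀ c : ℂ, ‖c‖ = 1 → ‖T + c • R‖ ≤ 1 + t ^ 2) (ξ η : H) (hη : (1 - P) η = η) :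
    ‖⟪ξ, T η⟫_ℂ‖ ≤ 3 * t * (‖ξ‖ * ‖η‖) ∧ ‖⟪η, T ξ⟫_ℂ‖ ≤ 3 * t * (‖ξ‖ * ‖η‖) := by
  have key : ∀ c : ℂ, ‖c‖ = 1 → ‖T + c • (1 - P)‖ ≤ 1 + 2 * t ^ 2 := by
    intro c hc
    have e : T + c • (1 - P) = (T + c • R) - c • (R - (1 - P)) := by
      rw [smul_sub c R]; abel
    rw [e]
    calc ‖(T + c • R) - c • (R - (1 - P))‖ ≤ ‖T + c • R‖ + ‖c • (R - (1 - P))‖ := norm_sub_le _ _
      _ ≤ (1 + t ^ 2) + t ^ 2 := by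
          gcongr
          · exact h c hc
          · rw [norm_smul, hc, one_mul]; exact hR
      _ = _ := by ring
  have hT : ‖T η‖ ≤ 3 * t * ‖η‖ := by
    refine est_par t ht ht1 _ _ ?_ ?_
    · have := key 1 (by simp)
      have e : T η + η = (T + (1 : ℂ) • (1 - P)) η := by
        rw [add_apply, smul_apply, hη, one_smul]
      rw [e]
      exact ContinuousLinearMap.le_of_opNorm_le _ this _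
    · have := key (-1) (by simp)
      have e : T η - η = (T + (-1 : ℂ) • (1 - P)) η := by
        rw [add_apply, smul_apply, hη, neg_smul, one_smul,
          sub_eq_add_neg]
      rw [e]
      exact ContinuousLinearMap.le_of_opNorm_le _ this _
  have hTs : ‖(star T) η‖ ≤ 3 * t * ‖η‖ := by
    refine est_par t ht ht1 _ _ ?_ ?_
    · have := key 1 (by simp)
      have e : (star T) η + η = (star (T + (1 : ℂ) • (1 - P))) η := by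
        rw [star_add, one_smul, one_sub_star P hPs, add_apply, hη]
      rw [e]
      refine ContinuousLinearMap.le_of_opNorm_le _ ?_ _
      rw [norm_star]; exact this
    · have := key (-1) (by simp)
      have e : (star T) η - η = (star (T + (-1 : ℂ) • (1 - P))) η := by
        rw [star_add, neg_smul, one_smul, star_neg, one_sub_star P hPs,
          add_apply, neg_apply, hη, sub_eq_add_neg]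
      rw [e]
      refine ContinuousLinearMap.le_of_opNorm_le _ ?_ _
      rw [norm_star]; exact this
  constructor
  · calc ‖⟪ξ, T η⟫_ℂ‖ ≤ ‖ξ‖ * ‖T η‖ := norm_inner_le_norm _ _
      _ ≤ ‖ξ‖ * (3 * t * ‖η‖) := by gcongr
      _ = _ := by ring
  · have e : ⟪η, T ξ⟫_ℂ = ⟪(star T) η, ξ⟫_ℂ := by
      rw [ContinuousLinearMap.star_eq_adjoint, ContinuousLinearMap.adjoint_inner_left]
    rw [e]
    calc ‖⟪(star T) η, ξ⟫_ℂ‖ ≤ ‖(star T) η‖ * ‖ξ‖ := norm_inner_le_norm _ _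
      _ ≤ (3 * t * ‖η‖) * ‖ξ‖ := by gcongr
      _ = _ := by ring

/-- The conjugation lemma at the level of operators. -/
theorem conj_op (t : ℝ) (ht : 0 < t) (ht1 : t ≤ 1) (P Rp Rq Tpp Tpq Tqp Tqq : H →L[ℂ] H)
    (hP : P * P = P) (hPs : star P = P)
    (hRp : ‖Rp - P‖ ≤ t ^ 2) (hRq : ‖Rq - (1 - P)‖ ≤ t ^ 2)
    (hpp : ∀ c : ℂ, ‖c‖ = 1 → ‖Tpp + c • Rq‖ ≤ 1 + t ^ 2)
    (hqq : ∀ c : ℂ, ‖c‖ = 1 → ‖Tqq + c • Rp‖ ≤ 1 + t ^ 2)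
    (hpq1 : ∀ c : ℂ, ‖c‖ = 1 → ∀ α : ℝ, 0 ≤ α →
      ‖c • Tpq + (α : ℂ) • Rp‖ ≤ (1 + t ^ 2) * √(1 + α ^ 2))
    (hpq2 : ∀ c : ℂ, ‖c‖ = 1 → ∀ α : ℝ, 0 ≤ α →
      ‖c • Tpq + (α : ℂ) • Rq‖ ≤ (1 + t ^ 2) * √(1 + α ^ 2))
    (hqp1 : ∀ c : ℂ, ‖c‖ = 1 → ∀ α : ℝ, 0 ≤ α →
      ‖c • Tqp + (α : ℂ) • Rp‖ ≤ (1 + t ^ 2) * √(1 + α ^ 2))
    (hqp2 : ∀ c : ℂ, ‖c‖ = 1 → ∀ α : ℝ, 0 ≤ α →
      ‖c • Tqp + (α : ℂ) • Rq‖ ≤ (1 + t ^ 2) * √(1 + α ^ 2))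
    (ζ : H) (hζ : ‖ζ‖ = 1) :
    ‖⟪P ζ - (1 - P) ζ, (Tpp - Tpq - Tqp + Tqq) (P ζ - (1 - P) ζ)⟫_ℂ
      - ⟪ζ, (Tpp + Tpq + Tqp + Tqq) ζ⟫_ℂ‖ ≤ 24 * t := by
  set ξ := P ζ with hξ
  set η := (1 - P) ζ with hη
  have hPξ : P ξ = ξ := by
    rw [hξ, ← mul_apply_eq_comp, hP]
  have hQη : (1 - P) η = η := by
    rw [hη, ← mul_apply_eq_comp, one_sub_idem P hP]
  have hζe : ζ = ξ + η := by rw [hξ, hη]; simp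
  have hn : ‖ξ‖ ^ 2 + ‖η‖ ^ 2 = 1 := by
    rw [← proj_decomp P hP hPs ζ, hζ, one_pow]
  have hprod : ‖ξ‖ * ‖η‖ ≤ 1 / 2 := by nlinarith [sq_nonneg (‖ξ‖ - ‖η‖)]
  -- (a)
  have a1 := conj_a t ht.le ht1 P Tpp Rq hPs hP hRq hpp ξ η hQη
  have a2 := conj_a t ht.le ht1 (1 - P) Tqq Rp (one_sub_star P hPs) (one_sub_idem P hP)
    (by rw [sub_sub_cancel]; exact hRp) hqq η ξ (by rw [sub_sub_cancel]; exact hPξ)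
  -- (b)
  have hRξ : ‖Rp ξ - ξ‖ ≤ t ^ 2 * ‖ξ‖ := by
    have e : Rp ξ - ξ = (Rp - P) ξ := by rw [sub_apply, hPξ]
    rw [e]; exact ContinuousLinearMap.le_of_opNorm_le _ hRp _
  have hRη : ‖Rq η - η‖ ≤ t ^ 2 * ‖η‖ := by
    have e : Rq η - η = (Rq - (1 - P)) η := by rw [sub_apply, hQη]
    rw [e]; exact ContinuousLinearMap.le_of_opNorm_le _ hRq _
  have b1 := est_b t ht ht1 Tpq Rp ξ hRξ hpq1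
  have b2 := est_b t ht ht1 Tpq Rq η hRη hpq2
  have b3 := est_b t ht ht1 Tqp Rp ξ hRξ hqp1
  have b4 := est_b t ht ht1 Tqp Rq η hRη hqp2
  have e : ⟪ξ - η, (Tpp - Tpq - Tqp + Tqq) (ξ - η)⟫_ℂ
      - ⟪ζ, (Tpp + Tpq + Tqp + Tqq) ζ⟫_ℂ
      = -(2 * (⟪ξ, Tpp η⟫_ℂ + ⟪η, Tpp ξ⟫_ℂ) + 2 * (⟪ξ, Tqq η⟫_ℂ + ⟪η, Tqq ξ⟫_ℂ)
        + 2 * (⟪ξ, Tpq ξ⟫_ℂ + ⟪η, Tpq η⟫_ℂ) + 2 * (⟪ξ, Tqp ξ⟫_ℂ + ⟪η, Tqp η⟫_ℂ)) := by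
    rw [hζe]
    simp only [add_apply, sub_apply, map_sub, map_add,
      inner_add_left, inner_add_right, inner_sub_left, inner_sub_right]
    ring
  rw [e, norm_neg]
  have n2 : ‖(2 : ℂ)‖ = 2 := by simp
  calc ‖2 * (⟪ξ, Tpp η⟫_ℂ + ⟪η, Tpp ξ⟫_ℂ) + 2 * (⟪ξ, Tqq η⟫_ℂ + ⟪η, Tqq ξ⟫_ℂ)
        + 2 * (⟪ξ, Tpq ξ⟫_ℂ + ⟪η, Tpq η⟫_ℂ) + 2 * (⟪ξ, Tqp ξ⟫_ℂ + ⟪η, Tqp η⟫_ℂ)‖
      ≤ ‖2 * (⟪ξ, Tpp η⟫_ℂ + ⟪η, Tpp ξ⟫_ℂ)‖ + ‖2 * (⟪ξ, Tqq η⟫_ℂ + ⟪η, Tqq ξ⟫_ℂ)‖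
        + ‖2 * (⟪ξ, Tpq ξ⟫_ℂ + ⟪η, Tpq η⟫_ℂ)‖ + ‖2 * (⟪ξ, Tqp ξ⟫_ℂ + ⟪η, Tqp η⟫_ℂ)‖ := by
        refine (norm_add_le _ _).trans ?_
        gcongr
        refine (norm_add_le _ _).trans ?_
        gcongr
        exact norm_add_le _ _
    _ ≤ 2 * (‖⟪ξ, Tpp η⟫_ℂ‖ + ‖⟪η, Tpp ξ⟫_ℂ‖) + 2 * (‖⟪ξ, Tqq η⟫_ℂ‖ + ‖⟪η, Tqq ξ⟫_ℂ‖)
        + 2 * (‖⟪ξ, Tpq ξ⟫_ℂ‖ + ‖⟪η, Tpq η⟫_ℂ‖) + 2 * (‖⟪ξ, Tqp ξ⟫_ℂ‖ + ‖⟪η, Tqp η⟫_ℂ‖) := by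
        rw [norm_mul, norm_mul, norm_mul, norm_mul, n2]
        gcongr <;> exact norm_add_le _ _
    _ ≤ 24 * t := by
        obtain ⟨a11, a12⟩ := a1
        obtain ⟨a21, a22⟩ := a2
        have c1 : 3 * t * (‖ξ‖ * ‖η‖) ≤ 3 * t * (1 / 2) := by gcongr
        have c2 : 3 * t * (‖η‖ * ‖ξ‖) ≤ 3 * t * (1 / 2) := by rw [mul_comm ‖η‖]; gcongr
        have c3 : 3 * t * ‖ξ‖ ^ 2 + 3 * t * ‖η‖ ^ 2 = 3 * t := by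
          rw [← mul_add, hn, mul_one]
        linarith

end Op

end Pool.Agent.MP3437a9
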