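import Pool.Agent.Lib.MP_3437a9_an.Conj

set_option autoImplicit false
set_option linter.unusedVariables false
set_option linter.unusedSectionVars false

open scoped InnerProductSpace ComplexConjugate ENNReal

namespace Pool.Agent.MP3437a9

section Half

variable {H : Type*} [NormedAddCommGroup H] [InnerProductSpace ℂ H] [CompleteSpace H]

/-- The spectral projection of an involution. -/
noncomputable def hp (s : H →L[ℂ] H) : H →L[ℂ] H := (1 / 2 : ℂ) • (1 + s)

theorem hp_idem (s : H →L[ℂ] H) (hs : s * s = 1) : hp s * hp s = hp s := by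
  unfold hp
  rw [smul_mul_smul_comm, mul_add, add_mul, add_mul, hs]
  simp only [one_mul, mul_one]
  module

theorem hp_star (s : H →L[ℂ] H) (hs : star s = s) : star (hp s) = hp s := by
  unfold hp
  rw [star_smul, star_add, star_one, hs]
  simp

theorem hp_compl (s : H →L[ℂ] H) : 1 - hp s = (1 / 2 : ℂ) • (1 - s) := by
  unfold hp; module

theorem corner_pp (s x : H →L[ℂ] H) :
    hp s * x * hp s = (1 / 4 : ℂ) • (x + s * x + x * s + s * x * s) := by
  unfold hp
  simp only [smul_mul_assoc, mul_smul_comm, add_mul, mul_add, one_mul, mul_one]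
  module

theorem corner_pq (s x : H →L[ℂ] H) :
    hp s * x * (1 - hp s) = (1 / 4 : ℂ) • (x + s * x - x * s - s * x * s) := by
  rw [hp_compl]
  unfold hp
  simp only [smul_mul_assoc, mul_smul_comm, add_mul, mul_sub, one_mul, mul_one]
  module

theorem corner_qp (s x : H →L[ℂ] H) :
    (1 - hp s) * x * hp s = (1 / 4 : ℂ) • (x - s * x + x * s - s * x * s) := by
  rw [hp_compl]
  unfold hp
  simp only [smul_mul_assoc, mul_smul_comm, sub_mul, mul_add, one_mul, mul_one]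
  module

theorem corner_qq (s x : H →L[ℂ] H) :
    (1 - hp s) * x * (1 - hp s) = (1 / 4 : ℂ) • (x - s * x - x * s + s * x * s) := by
  rw [hp_compl]
  simp only [smul_mul_assoc, mul_smul_comm, sub_mul, mul_sub, one_mul, mul_one]
  module

end Half

section Lp

variable {ι : Type*} {H : ι → Type*} [∀ i, NormedAddCommGroup (H i)]
  [∀ i, InnerProductSpace ℂ (H i)] [∀ i, CompleteSpace (H i)]
variable {K : Type*} [NormedAddCommGroup K] [InnerProductSpace ℂ K] [CompleteSpace K]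
variable {A : Type*} [NormedAddCommGroup A] [NormedSpace ℂ A]

theorem conj_lp (co : ∀ i, A →ₗ[ℂ] (H i →L[ℂ] H i))
    (hle : ∀ (y : A) (C : ℝ), 0 ≤ C → (∀ i, ‖co i y‖ ≤ C) → ‖y‖ ≤ C)
    (D : Submodule ℂ A) (Ψ : A →ₗ[ℂ] (K →L[ℂ] K))
    (t : ℝ) (ht : 0 < t) (ht1 : t ≤ 1) (hΨ : ∀ x ∈ D, ‖Ψ x‖ ≤ (1 + t ^ 2) * ‖x‖)
    (e s x sx xs sxs : A)
    (he : ∀ i, co i e = 1) (hs : ∀ i, co i s * co i s = 1) (hss : ∀ i, star (co i s) = co i s)
    (hsx : ∀ i, co i sx = co i s * co i x) (hxs : ∀ i, co i xs = co i x * co i s)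
    (hsxs : ∀ i, co i sxs = co i s * co i x * co i s)
    (hx : ∀ i, ‖co i x‖ ≤ 1) (me : e ∈ D) (ms : s ∈ D) (mx : x ∈ D) (msx : sx ∈ D) (mxs : xs ∈ D)
    (msxs : sxs ∈ D) (U : K →L[ℂ] K) (hU : U * U = 1) (hUs : star U = U)
    (hΨe : ‖Ψ e - 1‖ ≤ t ^ 2) (hΨs : ‖Ψ s - U‖ ≤ t ^ 2) (ζ : K) (hζ : ‖ζ‖ = 1) :
    ‖⟪U ζ, Ψ sxs (U ζ)⟫_ℂ - ⟪ζ, Ψ x ζ⟫_ℂ‖ ≤ 24 * t := by
  obtain ⟨p, hp_def⟩ : ∃ y : A, y = (1 / 2 : ℂ) • (e + s) := ⟨_, rfl⟩
  obtain ⟨q, hq_def⟩ : ∃ y : A, y = (1 / 2 : ℂ) • (e - s) := ⟨_, rfl⟩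
  obtain ⟨xpp, hxpp⟩ : ∃ y : A, y = (1 / 4 : ℂ) • (x + sx + xs + sxs) := ⟨_, rfl⟩
  obtain ⟨xpq, hxpq⟩ : ∃ y : A, y = (1 / 4 : ℂ) • (x + sx - xs - sxs) := ⟨_, rfl⟩
  obtain ⟨xqp, hxqp⟩ : ∃ y : A, y = (1 / 4 : ℂ) • (x - sx + xs - sxs) := ⟨_, rfl⟩
  obtain ⟨xqq, hxqq⟩ : ∃ y : A, y = (1 / 4 : ℂ) • (x - sx - xs + sxs) := ⟨_, rfl⟩
  have mp : p ∈ D := hp_def ▸ D.smul_mem _ (D.add_mem me ms)
  have mq : q ∈ D := hq_def ▸ D.smul_mem _ (D.sub_mem me ms)
  have mpp : xpp ∈ D := hxpp ▸ D.smul_mem _ (D.add_mem (D.add_mem (D.add_mem mx msx) mxs) msxs)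
  have mpq : xpq ∈ D := hxpq ▸ D.smul_mem _ (D.sub_mem (D.sub_mem (D.add_mem mx msx) mxs) msxs)
  have mqp : xqp ∈ D := hxqp ▸ D.smul_mem _ (D.sub_mem (D.add_mem (D.sub_mem mx msx) mxs) msxs)
  have mqq : xqq ∈ D := hxqq ▸ D.smul_mem _ (D.add_mem (D.sub_mem (D.sub_mem mx msx) mxs) msxs)
  have cp : ∀ i, co i p = hp (co i s) := fun i => by
    rw [hp_def, map_smul, map_add, he i]; rfl
  have cq : ∀ i, co i q = 1 - hp (co i s) := fun i => by
    rw [hq_def, hp_compl, map_smul, map_sub, he i]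
  have cpp : ∀ i, co i xpp = hp (co i s) * co i x * hp (co i s) := fun i => by
    rw [corner_pp, hxpp, map_smul, map_add, map_add, map_add, hsx, hxs, hsxs]
  have cpq : ∀ i, co i xpq = hp (co i s) * co i x * (1 - hp (co i s)) := fun i => by
    rw [corner_pq, hxpq, map_smul, map_sub, map_sub, map_add, hsx, hxs, hsxs]
  have cqp : ∀ i, co i xqp = (1 - hp (co i s)) * co i x * hp (co i s) := fun i => by
    rw [corner_qp, hxqp, map_smul, map_sub, map_add, map_sub, hsx, hxs, hsxs]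
  have cqq : ∀ i, co i xqq = (1 - hp (co i s)) * co i x * (1 - hp (co i s)) := fun i => by
    rw [corner_qq, hxqq, map_smul, map_add, map_sub, map_sub, hsx, hxs, hsxs]
  have ht2 : 0 ≤ 1 + t ^ 2 := by positivity
  have bound : ∀ y ∈ D, ∀ C : ℝ, 0 ≤ C → (∀ i, ‖co i y‖ ≤ C) → ‖Ψ y‖ ≤ (1 + t ^ 2) * C := by
    intro y hy C hC hi
    exact (hΨ y hy).trans (mul_le_mul_of_nonneg_left (hle y C hC hi) ht2)
  have hpi : ∀ i, hp (co i s) * hp (co i s) = hp (co i s) := fun i => hp_idem _ (hs i)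
  have hpsi : ∀ i, star (hp (co i s)) = hp (co i s) := fun i => hp_star _ (hss i)
  have hqi : ∀ i, (1 - hp (co i s)) * (1 - hp (co i s)) = 1 - hp (co i s) := fun i =>
    one_sub_idem _ (hpi i)
  have hqsi : ∀ i, star (1 - hp (co i s)) = 1 - hp (co i s) := fun i => one_sub_star _ (hpsi i)
  have main := conj_op t ht ht1 (hp U) (Ψ p) (Ψ q) (Ψ xpp) (Ψ xpq) (Ψ xqp) (Ψ xqq)
    (hp_idem U hU) (hp_star U hUs)
    (by
      have e1 : Ψ p - hp U = (1 / 2 : ℂ) • ((Ψ e - 1) + (Ψ s - U)) := by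
        rw [hp_def, map_smul, map_add]; unfold hp; module
      rw [e1, norm_smul]
      have : ‖(Ψ e - 1) + (Ψ s - U)‖ ≤ t ^ 2 + t ^ 2 := (norm_add_le _ _).trans (add_le_add hΨe hΨs)
      have n2 : ‖(1 / 2 : ℂ)‖ = 1 / 2 := by simp
      rw [n2]; linarith)
    (by
      have e1 : Ψ q - (1 - hp U) = (1 / 2 : ℂ) • ((Ψ e - 1) - (Ψ s - U)) := by
        rw [hq_def, map_smul, map_sub]; unfold hp; module
      rw [e1, norm_smul]
      have : ‖(Ψ e - 1) - (Ψ s - U)‖ ≤ t ^ 2 + t ^ 2 := (norm_sub_le _ _).trans (add_le_add hΨe hΨs)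
      have n2 : ‖(1 / 2 : ℂ)‖ = 1 / 2 := by simp
      rw [n2]; linarith)
    (by
      intro c hc
      have := bound (xpp + c • q) (D.add_mem mpp (D.smul_mem _ mq)) 1 zero_le_one (fun i => by
        rw [map_add, map_smul, cpp, cq]
        exact op_a (hp (co i s)) (hpi i) (hpsi i) (co i x) (hx i) c hc)
      rw [map_add, map_smul, mul_one] at this
      exact this)
    (by
      intro c hc
      have := bound (xqq + c • p) (D.add_mem mqq (D.smul_mem _ mp)) 1 zero_le_one (fun i => by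
        rw [map_add, map_smul, cqq, cp]
        have := op_a (1 - hp (co i s)) (hqi i) (hqsi i) (co i x) (hx i) c hc
        rwa [sub_sub_cancel] at this)
      rw [map_add, map_smul, mul_one] at this
      exact this)
    (by
      intro c hc α hα
      have := bound (c • xpq + (α : ℂ) • p) (D.add_mem (D.smul_mem _ mpq) (D.smul_mem _ mp))
        (√(1 + α ^ 2)) (Real.sqrt_nonneg _) (fun i => by
        rw [map_add, map_smul, map_smul, cpq, cp]
        exact op_b1 (hp (co i s)) (hpi i) (hpsi i) (co i x) (hx i) c hc α hα)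
      rw [map_add, map_smul, map_smul] at this
      exact this)
    (by
      intro c hc α hα
      have := bound (c • xpq + (α : ℂ) • q) (D.add_mem (D.smul_mem _ mpq) (D.smul_mem _ mq))
        (√(1 + α ^ 2)) (Real.sqrt_nonneg _) (fun i => by
        rw [map_add, map_smul, map_smul, cpq, cq]
        exact op_b2 (hp (co i s)) (hpi i) (hpsi i) (co i x) (hx i) c hc α hα)
      rw [map_add, map_smul, map_smul] at this
      exact this)
    (by
      intro c hc α hα
      have := bound (c • xqp + (α : ℂ) • p) (D.add_mem (D.smul_mem _ mqp) (D.smul_mem _ mp))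
        (√(1 + α ^ 2)) (Real.sqrt_nonneg _) (fun i => by
        rw [map_add, map_smul, map_smul, cqp, cp]
        have := op_b2 (1 - hp (co i s)) (hqi i) (hqsi i) (co i x) (hx i) c hc α hα
        rwa [sub_sub_cancel] at this)
      rw [map_add, map_smul, map_smul] at this
      exact this)
    (by
      intro c hc α hα
      have := bound (c • xqp + (α : ℂ) • q) (D.add_mem (D.smul_mem _ mqp) (D.smul_mem _ mq))
        (√(1 + α ^ 2)) (Real.sqrt_nonneg _) (fun i => by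
        rw [map_add, map_smul, map_smul, cqp, cq]
        have := op_b1 (1 - hp (co i s)) (hqi i) (hqsi i) (co i x) (hx i) c hc α hα
        rwa [sub_sub_cancel] at this)
      rw [map_add, map_smul, map_smul] at this
      exact this)
    ζ hζ
  have f1 : hp U ζ - (1 - hp U) ζ = U ζ := by
    rw [hp_compl]
    unfold hp
    simp only [smul_apply, add_apply, sub_apply]
    module
  have f2 : Ψ xpp - Ψ xpq - Ψ xqp + Ψ xqq = Ψ sxs := by
    rw [← map_sub, ← map_sub, ← map_add]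
    congr 1
    rw [hxpp, hxpq, hxqp, hxqq]
    module
  have f3 : Ψ xpp + Ψ xpq + Ψ xqp + Ψ xqq = Ψ x := by
    rw [← map_add, ← map_add, ← map_add]
    congr 1
    rw [hxpp, hxpq, hxqp, hxqq]
    module
  rw [f1, f2, f3] at main
  exact main

end Lp

end Pool.Agent.MP3437a9
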