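import Pool.Agent.Lib.MP_3437a9_an.Conj

set_option autoImplicit false
set_option linter.unusedVariables false
set_option linter.unusedSectionVars false

open scoped InnerProductSpace ComplexConjugate ENNReal Pointwise

namespace Pool.Agent.MP3437a9

theorem hb_sep {E : Type*} [NormedAddCommGroup E] [NormedSpace ℂ E] (C : Set E) (hC0 : (0 : E) ∈ C)
    (hconv : ∀ x ∈ C, ∀ y ∈ C, ∀ a b : ℝ, 0 ≤ a → 0 ≤ b → a + b = 1 →
      (a : ℂ) • x + (b : ℂ) • y ∈ C)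
    (hbal : ∀ x ∈ C, ∀ c : ℂ, ‖c‖ = 1 → c • x ∈ C) (z : E) (δ : ℝ) (hδ : 0 < δ)
    (hz : ∀ x ∈ C, δ ≤ ‖x - z‖) :
    ∃ v : E →ₗ[ℂ] ℂ, v z = 1 ∧ (∀ x, ‖v x‖ ≤ ‖x‖ / δ) ∧ (∀ x ∈ C, ‖v x‖ ≤ 1) := by
  set U : Set E := C + Metric.ball (0 : E) δ with hU
  have hCc : Convex ℝ C := by
    intro x hx y hy a b ha hb hab
    exact hconv x hx y hy a b ha hb hab
  have hUc : Convex ℝ U := hCc.add (convex_ball _ _)
  have hUo : IsOpen U := Metric.isOpen_ball.add_left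
  have hzU : z ∉ U := by
    rintro ⟨x, hx, b, hb, rfl⟩
    have h1 := hz x hx
    have h2 : x - (x + b) = -b := by abel
    rw [h2, norm_neg] at h1
    rw [mem_ball_zero_iff] at hb
    linarith
  obtain ⟨f, hf⟩ := RCLike.geometric_hahn_banach_open_point (𝕜 := ℂ) hUc hUo hzU
  have hCU : ∀ x ∈ C, x ∈ U := fun x hx => ⟨x, hx, 0, Metric.mem_ball_self hδ, add_zero _⟩
  have hBU : ∀ x : E, ‖x‖ < δ → x ∈ U := fun x hx =>
    ⟨0, hC0, x, mem_ball_zero_iff.2 hx, zero_add _⟩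
  have hUb : ∀ u ∈ U, ∀ c : ℂ, ‖c‖ = 1 → c • u ∈ U := by
    rintro _ ⟨x, hx, b, hb, rfl⟩ c hc
    refine ⟨c • x, hbal x hx c hc, c • b, ?_, (smul_add _ _ _).symm⟩
    rw [mem_ball_zero_iff] at hb ⊢
    rw [norm_smul, hc, one_mul]; exact hb
  have hz0 : 0 < (f z).re := by
    have := hf 0 (hCU 0 hC0)
    rw [map_zero] at this
    simpa using this
  have hfz : 0 < ‖f z‖ := lt_of_lt_of_le hz0 ((le_abs_self _).trans (Complex.abs_re_le_norm _))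
  have hfz' : f z ≠ 0 := norm_pos_iff.1 hfz
  have key : ∀ u ∈ U, ‖f u‖ < ‖f z‖ := by
    intro u hu
    obtain ⟨θ, hθ, hre⟩ := exists_rot (f u)
    have h1 := hf _ (hUb u hu θ hθ)
    rw [map_smul, smul_eq_mul] at h1
    change (θ * f u).re < (f z).re at h1
    rw [hre] at h1
    exact h1.trans_le ((le_abs_self _).trans (Complex.abs_re_le_norm _))
  refine ⟨(f z)⁻¹ • (f : E →ₗ[ℂ] ℂ), ?_, ?_, ?_⟩
  · show (f z)⁻¹ * f z = 1
    exact inv_mul_cancel₀ hfz'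
  · intro x
    show ‖(f z)⁻¹ * f x‖ ≤ _
    by_contra hcon
    push Not at hcon
    have h0 : 0 ≤ ‖x‖ / δ := by positivity
    have h1 : 0 < ‖f x‖ := by
      rcases (norm_nonneg (f x)).lt_or_eq with h | h
      · exact h
      · rw [norm_mul, ← h, mul_zero] at hcon
        linarith
    have hfx : f x ≠ 0 := norm_pos_iff.1 h1
    have h2 : ‖(f z * (f x)⁻¹) • x‖ < δ := by
      rw [norm_smul, norm_mul, norm_inv]
      rw [norm_mul, norm_inv, div_lt_iff₀ hδ] at hcon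
      have : ‖f z‖ * ‖f x‖⁻¹ * ‖x‖ < ‖f z‖ * ‖f x‖⁻¹ * (‖f z‖⁻¹ * ‖f x‖ * δ) := by
        gcongr
      refine this.trans_eq ?_
      field_simp
    have h3 := key _ (hBU _ h2)
    rw [map_smul, smul_eq_mul, mul_assoc, inv_mul_cancel₀ hfx, mul_one] at h3
    exact lt_irrefl _ h3
  · intro x hx
    show ‖(f z)⁻¹ * f x‖ ≤ 1
    rw [norm_mul, norm_inv]
    have h3 := key _ (hCU x hx)
    calc ‖f z‖⁻¹ * ‖f x‖ ≤ ‖f z‖⁻¹ * ‖f z‖ := by gcongr
      _ = 1 := inv_mul_cancel₀ hfz.ne'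

end Pool.Agent.MP3437a9
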