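import Mathlib

set_option autoImplicit false
set_option linter.unusedVariables false
set_option linter.unusedSectionVars false

open scoped InnerProductSpace ComplexConjugate ENNReal

namespace Pool.Agent.MP3437a9

/-- Operators on a finite-dimensional coordinate Hilbert space. -/
noncomputable abbrev EE (ι : Type) [Fintype ι] := EuclideanSpace ℂ ι →L[ℂ] EuclideanSpace ℂ ι

section Tens

variable {ι κ : Type} [Fintype ι] [Fintype κ]

/-- `ζ ↦ ξ ⊗ ζ`. -/
noncomputable def Vv (ξ : EuclideanSpace ℂ ι) :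
    EuclideanSpace ℂ κ →L[ℂ] EuclideanSpace ℂ (ι × κ) :=
  LinearMap.toContinuousLinearMap
    { toFun := fun ζ => WithLp.toLp 2 (fun p => ξ p.1 * ζ p.2)
      map_add' := fun f g => by ext p; simp [mul_add]
      map_smul' := fun c f => by ext p; simp; ring }

@[simp] theorem Vv_apply (ξ : EuclideanSpace ℂ ι) (ζ : EuclideanSpace ℂ κ) (p : ι × κ) :
    Vv ξ ζ p = ξ p.1 * ζ p.2 := rfl

theorem Vv_inner (ξ ξ' : EuclideanSpace ℂ ι) (ζ ζ' : EuclideanSpace ℂ κ) :
    ⟪Vv ξ ζ, Vv ξ' ζ'⟫_ℂ = ⟪ξ, ξ'⟫_ℂ * ⟪ζ, ζ'⟫_ℂ := by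
  rw [PiLp.inner_apply, PiLp.inner_apply, PiLp.inner_apply, Fintype.sum_prod_type,
    Finset.sum_mul_sum]
  refine Finset.sum_congr rfl (fun i _ => Finset.sum_congr rfl (fun j _ => ?_))
  rw [Vv_apply, Vv_apply]
  simp only [RCLike.inner_apply, map_mul]
  ring

theorem Vv_norm (ξ : EuclideanSpace ℂ ι) (ζ : EuclideanSpace ℂ κ) :
    ‖Vv ξ ζ‖ = ‖ξ‖ * ‖ζ‖ := by
  have h := Vv_inner ξ ξ ζ ζ
  rw [inner_self_eq_norm_sq_to_K, inner_self_eq_norm_sq_to_K, inner_self_eq_norm_sq_to_K] at h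
  have h2 : ‖Vv ξ ζ‖ ^ 2 = (‖ξ‖ * ‖ζ‖) ^ 2 := by
    rw [mul_pow]; exact_mod_cast h
  exact (sq_eq_sq₀ (norm_nonneg _) (by positivity)).1 h2

theorem Vv_opNorm_le (ξ : EuclideanSpace ℂ ι) :
    ‖(Vv ξ : EuclideanSpace ℂ κ →L[ℂ] EuclideanSpace ℂ (ι × κ))‖ ≤ ‖ξ‖ :=
  ContinuousLinearMap.opNorm_le_bound _ (norm_nonneg _) (fun ζ => (Vv_norm ξ ζ).le)

theorem Vv_add (ξ ξ' : EuclideanSpace ℂ ι) :
    (Vv (ξ + ξ') : EuclideanSpace ℂ κ →L[ℂ] EuclideanSpace ℂ (ι × κ)) = Vv ξ + Vv ξ' := by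
  ext ζ p
  rw [add_apply, PiLp.add_apply, Vv_apply, Vv_apply, Vv_apply, PiLp.add_apply, add_mul]

theorem Vv_smul (c : ℂ) (ξ : EuclideanSpace ℂ ι) :
    (Vv (c • ξ) : EuclideanSpace ℂ κ →L[ℂ] EuclideanSpace ℂ (ι × κ)) = c • Vv ξ := by
  ext ζ p
  rw [smul_apply, PiLp.smul_apply, Vv_apply, Vv_apply, PiLp.smul_apply, smul_eq_mul,
    smul_eq_mul, mul_assoc]

/-- `A ⊗ 1`. -/
noncomputable def ampL (A : EE ι) : EE (ι × κ) :=
  LinearMap.toContinuousLinearMap
    { toFun := fun f => WithLp.toLp 2 (fun p => A (WithLp.toLp 2 (fun i => f (i, p.2))) p.1)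
      map_add' := fun f g => by
        ext p
        have : (WithLp.toLp 2 (fun i => (f + g) (i, p.2)) : EuclideanSpace ℂ ι)
          = WithLp.toLp 2 (fun i => f (i, p.2)) + WithLp.toLp 2 (fun i => g (i, p.2)) := rfl
        show A (WithLp.toLp 2 (fun i => (f + g) (i, p.2))) p.1 = _
        rw [this, map_add]; rfl
      map_smul' := fun c f => by
        ext p
        have : (WithLp.toLp 2 (fun i => (c • f) (i, p.2)) : EuclideanSpace ℂ ι)
          = c • WithLp.toLp 2 (fun i => f (i, p.2)) := rfl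
        show A (WithLp.toLp 2 (fun i => (c • f) (i, p.2))) p.1 = _
        rw [this, map_smul]; rfl }

theorem ampL_apply (A : EE ι) (f : EuclideanSpace ℂ (ι × κ)) (p : ι × κ) :
    ampL A f p = A (WithLp.toLp 2 (fun i => f (i, p.2))) p.1 := rfl

/-- `1 ⊗ B`. -/
noncomputable def ampR (B : EE κ) : EE (ι × κ) :=
  LinearMap.toContinuousLinearMap
    { toFun := fun f => WithLp.toLp 2 (fun p => B (WithLp.toLp 2 (fun j => f (p.1, j))) p.2)
      map_add' := fun f g => by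
        ext p
        have : (WithLp.toLp 2 (fun j => (f + g) (p.1, j)) : EuclideanSpace ℂ κ)
          = WithLp.toLp 2 (fun j => f (p.1, j)) + WithLp.toLp 2 (fun j => g (p.1, j)) := rfl
        show B (WithLp.toLp 2 (fun j => (f + g) (p.1, j))) p.2 = _
        rw [this, map_add]; rfl
      map_smul' := fun c f => by
        ext p
        have : (WithLp.toLp 2 (fun j => (c • f) (p.1, j)) : EuclideanSpace ℂ κ)
          = c • WithLp.toLp 2 (fun j => f (p.1, j)) := rfl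
        show B (WithLp.toLp 2 (fun j => (c • f) (p.1, j))) p.2 = _
        rw [this, map_smul]; rfl }

theorem ampR_apply (B : EE κ) (f : EuclideanSpace ℂ (ι × κ)) (p : ι × κ) :
    ampR B f p = B (WithLp.toLp 2 (fun j => f (p.1, j))) p.2 := rfl

theorem ampL_norm_le (A : EE ι) : ‖(ampL A : EE (ι × κ))‖ ≤ ‖A‖ := by
  refine ContinuousLinearMap.opNorm_le_bound _ (norm_nonneg _) (fun f => ?_)
  have h : ‖ampL A f‖ ^ 2 ≤ (‖A‖ * ‖f‖) ^ 2 := by
    rw [mul_pow, EuclideanSpace.norm_sq_eq, EuclideanSpace.norm_sq_eq, Fintype.sum_prod_type_right,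
      Fintype.sum_prod_type_right, Finset.mul_sum]
    refine Finset.sum_le_sum (fun j _ => ?_)
    have h1 := A.le_opNorm (WithLp.toLp 2 (fun i => f (i, j)))
    have h2 : ‖A (WithLp.toLp 2 (fun i => f (i, j)))‖ ^ 2
        ≤ (‖A‖ * ‖(WithLp.toLp 2 (fun i => f (i, j)) : EuclideanSpace ℂ ι)‖) ^ 2 := by
      gcongr
    rw [mul_pow, EuclideanSpace.norm_sq_eq, EuclideanSpace.norm_sq_eq] at h2
    exact h2
  exact (abs_le_of_sq_le_sq' h (by positivity)).2

theorem ampR_norm_le (B : EE κ) : ‖(ampR B : EE (ι × κ))‖ ≤ ‖B‖ := by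
  refine ContinuousLinearMap.opNorm_le_bound _ (norm_nonneg _) (fun f => ?_)
  have h : ‖ampR B f‖ ^ 2 ≤ (‖B‖ * ‖f‖) ^ 2 := by
    rw [mul_pow, EuclideanSpace.norm_sq_eq, EuclideanSpace.norm_sq_eq, Fintype.sum_prod_type,
      Fintype.sum_prod_type, Finset.mul_sum]
    refine Finset.sum_le_sum (fun i _ => ?_)
    have h1 := B.le_opNorm (WithLp.toLp 2 (fun j => f (i, j)))
    have h2 : ‖B (WithLp.toLp 2 (fun j => f (i, j)))‖ ^ 2
        ≤ (‖B‖ * ‖(WithLp.toLp 2 (fun j => f (i, j)) : EuclideanSpace ℂ κ)‖) ^ 2 := by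
      gcongr
    rw [mul_pow, EuclideanSpace.norm_sq_eq, EuclideanSpace.norm_sq_eq] at h2
    exact h2
  exact (abs_le_of_sq_le_sq' h (by positivity)).2

/-- `A ⊗ B`, as a bilinear map. -/
noncomputable def tens : EE ι →ₗ[ℂ] EE κ →ₗ[ℂ] EE (ι × κ) :=
  LinearMap.mk₂ ℂ (fun A B => ampL A * ampR B)
    (fun A A' B => by
      rw [← add_mul]; congr 1)
    (fun c A B => by
      rw [← smul_mul_assoc]; congr 1)
    (fun A B B' => by
      rw [← mul_add]; congr 1)
    (fun c A B => by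
      rw [← mul_smul_comm]; congr 1)

theorem tens_def (A : EE ι) (B : EE κ) : tens A B = ampL A * ampR B := rfl

theorem tens_norm_le (A : EE ι) (B : EE κ) : ‖tens A B‖ ≤ ‖A‖ * ‖B‖ := by
  rw [tens_def]
  exact (norm_mul_le _ _).trans (mul_le_mul (ampL_norm_le A) (ampR_norm_le B) (norm_nonneg _)
    (norm_nonneg _))

theorem tens_Vv (A : EE ι) (B : EE κ) (ξ : EuclideanSpace ℂ ι) (ζ : EuclideanSpace ℂ κ) :
    tens A B (Vv ξ ζ) = Vv (A ξ) (B ζ) := by
  have h1 : ampR B (Vv ξ ζ) = Vv ξ (B ζ) := by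
    ext p
    rw [ampR_apply, Vv_apply]
    have : (WithLp.toLp 2 (fun j => (Vv ξ ζ) (p.1, j)) : EuclideanSpace ℂ κ) = ξ p.1 • ζ := rfl
    rw [this, map_smul]; rfl
  have h2 : ∀ ζ' : EuclideanSpace ℂ κ, ampL A (Vv ξ ζ') = Vv (A ξ) ζ' := by
    intro ζ'
    ext p
    rw [ampL_apply, Vv_apply]
    have : (WithLp.toLp 2 (fun i => (Vv ξ ζ') (i, p.2)) : EuclideanSpace ℂ ι) = ζ' p.2 • ξ := by
      ext i
      show ξ i * ζ' p.2 = ζ' p.2 * ξ i
      ring
    rw [this, map_smul, PiLp.smul_apply, smul_eq_mul]; ring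
  rw [tens_def]
  show ampL A (ampR B (Vv ξ ζ)) = _
  rw [h1, h2]

/-- The slice map. -/
noncomputable def Sl (η ξ : EuclideanSpace ℂ ι) : EE (ι × κ) →ₗ[ℂ] EE κ where
  toFun T := (ContinuousLinearMap.adjoint (Vv η)) ∘L T ∘L (Vv ξ)
  map_add' T T' := by ext; simp
  map_smul' c T := by ext; simp

theorem Sl_def (η ξ : EuclideanSpace ℂ ι) (T : EE (ι × κ)) :
    Sl η ξ T = (ContinuousLinearMap.adjoint (Vv η)) ∘L T ∘L (Vv ξ) := rfl

theorem Sl_norm_le (η ξ : EuclideanSpace ℂ ι) (T : EE (ι × κ)) :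
    ‖Sl η ξ T‖ ≤ ‖η‖ * ‖ξ‖ * ‖T‖ := by
  rw [Sl_def]
  calc ‖(ContinuousLinearMap.adjoint (Vv η)) ∘L T ∘L (Vv ξ)‖
      ≤ ‖ContinuousLinearMap.adjoint (Vv η : EuclideanSpace ℂ κ →L[ℂ] _)‖ * ‖T ∘L (Vv ξ)‖ :=
        ContinuousLinearMap.opNorm_comp_le _ _
    _ ≤ ‖η‖ * (‖T‖ * ‖ξ‖) := by
        gcongr
        · rw [LinearIsometryEquiv.norm_map]; exact Vv_opNorm_le η
        · exact (ContinuousLinearMap.opNorm_comp_le _ _).trans (by
            gcongr; exact Vv_opNorm_le ξ)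
    _ = _ := by ring

theorem Sl_tens (η ξ : EuclideanSpace ℂ ι) (A : EE ι) (B : EE κ) :
    Sl η ξ (tens A B) = ⟪η, A ξ⟫_ℂ • B := by
  refine ContinuousLinearMap.ext (fun ζ => ?_)
  refine ext_inner_left ℂ (fun ζ' => ?_)
  show ⟪ζ', (ContinuousLinearMap.adjoint (Vv η)) (tens A B (Vv ξ ζ))⟫_ℂ = _
  rw [ContinuousLinearMap.adjoint_inner_right, tens_Vv, Vv_inner, smul_apply, inner_smul_right]

theorem Sl_add_left (η η' ξ : EuclideanSpace ℂ ι) (T : EE (ι × κ)) :
    Sl (η + η') ξ T = Sl η ξ T + Sl η' ξ T := by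
  rw [Sl_def, Sl_def, Sl_def, Vv_add, map_add]
  ext; simp

theorem Sl_smul_left (c : ℂ) (η ξ : EuclideanSpace ℂ ι) (T : EE (ι × κ)) :
    Sl (c • η) ξ T = conj c • Sl η ξ T := by
  rw [Sl_def, Sl_def, Vv_smul]
  have : ContinuousLinearMap.adjoint (c • Vv η : EuclideanSpace ℂ κ →L[ℂ] _)
      = conj c • ContinuousLinearMap.adjoint (Vv η) := by
    rw [LinearIsometryEquiv.map_smulₛₗ]
  rw [this]
  ext; simp

theorem Sl_add_right (η ξ ξ' : EuclideanSpace ℂ ι) (T : EE (ι × κ)) :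
    Sl η (ξ + ξ') T = Sl η ξ T + Sl η ξ' T := by
  rw [Sl_def, Sl_def, Sl_def, Vv_add]
  ext; simp

theorem Sl_smul_right (c : ℂ) (η ξ : EuclideanSpace ℂ ι) (T : EE (ι × κ)) :
    Sl η (c • ξ) T = c • Sl η ξ T := by
  rw [Sl_def, Sl_def, Vv_smul]
  ext; simp

/-- The operator `Op T` with `⟨η, Op T ξ⟩ = Φ (Sl η ξ ∘ T)`. -/
theorem exists_Op {Y : Type} (Φ : (Y → EE κ) →ₗ[ℂ] ℂ) :
    ∃ Op : (Y → EE (ι × κ)) →ₗ[ℂ] EE ι, ∀ (T : Y → EE (ι × κ)) (η ξ : EuclideanSpace ℂ ι),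
      ⟪η, Op T ξ⟫_ℂ = Φ (fun y => Sl η ξ (T y)) := by
  classical
  let e : ι → EuclideanSpace ℂ ι := fun i => EuclideanSpace.single i 1
  refine ⟨{ toFun := fun T => LinearMap.toContinuousLinearMap
              { toFun := fun ξ => WithLp.toLp 2 (fun i => Φ (fun y => Sl (e i) ξ (T y)))
                map_add' := ?_
                map_smul' := ?_ }
            map_add' := ?_
            map_smul' := ?_ }, ?_⟩
  · intro ξ ξ'
    ext i
    show Φ (fun y => Sl (e i) (ξ + ξ') (T y))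
      = Φ (fun y => Sl (e i) ξ (T y)) + Φ (fun y => Sl (e i) ξ' (T y))
    rw [← map_add]
    congr 1
    funext y
    exact Sl_add_right _ _ _ _
  · intro c ξ
    ext i
    show Φ (fun y => Sl (e i) (c • ξ) (T y)) = c • Φ (fun y => Sl (e i) ξ (T y))
    rw [← map_smul]
    congr 1
    funext y
    exact Sl_smul_right _ _ _ _
  · intro T T'
    ext ξ i
    show Φ (fun y => Sl (e i) ξ (T y + T' y))
      = Φ (fun y => Sl (e i) ξ (T y)) + Φ (fun y => Sl (e i) ξ (T' y))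
    rw [← map_add]
    congr 1
    funext y
    rw [map_add]; rfl
  · intro c T
    ext ξ i
    show Φ (fun y => Sl (e i) ξ (c • T y)) = c • Φ (fun y => Sl (e i) ξ (T y))
    rw [← map_smul]
    congr 1
    funext y
    rw [map_smul]; rfl
  · intro T η ξ
    have hη : η = ∑ i, η i • e i := by
      ext j
      simp [e, Finset.sum_apply, Pi.single_apply]
    have h1 : ∀ y, Sl η ξ (T y) = ∑ i, conj (η i) • Sl (e i) ξ (T y) := by
      intro y
      have h2 : ∀ (s : Finset ι), Sl (∑ i ∈ s, η i • e i) ξ (T y)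
          = ∑ i ∈ s, conj (η i) • Sl (e i) ξ (T y) := by
        intro s
        induction s using Finset.induction_on with
        | empty =>
          rw [Finset.sum_empty, Finset.sum_empty]
          have := Sl_smul_left 0 (0 : EuclideanSpace ℂ ι) ξ (T y)
          rw [zero_smul, map_zero] at this
          rw [this]
          exact zero_smul ℂ (Sl (0 : EuclideanSpace ℂ ι) ξ (T y))
        | insert a s ha ih =>
          rw [Finset.sum_insert ha, Finset.sum_insert ha, Sl_add_left, Sl_smul_left, ih]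
      have h3 := h2 Finset.univ
      rw [← hη] at h3
      exact h3
    have h4 : (fun y => Sl η ξ (T y)) = ∑ i, conj (η i) • (fun y => Sl (e i) ξ (T y)) := by
      funext y
      rw [h1 y, Finset.sum_apply]
      rfl
    rw [h4, map_sum, PiLp.inner_apply]
    refine Finset.sum_congr rfl (fun i _ => ?_)
    rw [map_smul]
    show ⟪η i, Φ (fun y => Sl (e i) ξ (T y))⟫_ℂ = _
    rw [RCLike.inner_apply, smul_eq_mul, mul_comm]

end Tens

/-- Iterated product index type. -/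
def JJ (ι : Type) : ℕ → Type
  | 0 => Unit
  | m + 1 => ι × JJ ι m

instance JJ.fintype {ι : Type} [Fintype ι] : ∀ m, Fintype (JJ ι m)
  | 0 => inferInstanceAs (Fintype Unit)
  | m + 1 =>
    letI := JJ.fintype (ι := ι) m
    inferInstanceAs (Fintype (ι × JJ ι m))

/-- The iterated tensor product of operators. -/
noncomputable def ten {ι : Type} [Fintype ι] :
    ∀ m : ℕ, MultilinearMap ℂ (fun _ : Fin m => EE ι) (EE (JJ ι m))
  | 0 => MultilinearMap.constOfIsEmpty ℂ _ 1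
  | m + 1 =>
    LinearMap.uncurryLeft
      { toFun := fun A => ((tens A : EE (JJ ι m) →ₗ[ℂ] EE (ι × JJ ι m))).compMultilinearMap (ten m)
        map_add' := fun A A' => by
          refine MultilinearMap.ext (fun x => ?_)
          show tens (A + A') (ten m x) = tens A (ten m x) + tens A' (ten m x)
          rw [map_add]; rfl
        map_smul' := fun c A => by
          refine MultilinearMap.ext (fun x => ?_)
          show tens (c • A) (ten m x) = c • tens A (ten m x)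
          rw [map_smul]; rfl }

theorem ten_succ {ι : Type} [Fintype ι] (m : ℕ) (y : Fin (m + 1) → EE ι) :
    ten (m + 1) y = (tens (y 0) (ten m (Fin.tail y)) : EE (ι × JJ ι m)) := rfl

theorem ten_norm_le {ι : Type} [Fintype ι] (m : ℕ) (y : Fin m → EE ι) :
    ‖ten m y‖ ≤ ∏ i, ‖y i‖ := by
  induction m with
  | zero =>
    show ‖(1 : EE (JJ ι 0))‖ ≤ _
    simp only [Finset.univ_eq_empty, Finset.prod_empty]
    exact ContinuousLinearMap.norm_id_le
  | succ m ih =>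
    rw [Fin.prod_univ_succ]
    have h1 := tens_norm_le (y 0) (ten m (Fin.tail y))
    have h2 := ih (Fin.tail y)
    refine (le_of_eq ?_).trans (h1.trans (mul_le_mul_of_nonneg_left h2 (norm_nonneg _)))
    rfl

end Pool.Agent.MP3437a9
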