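import Pool.Agent.Lib.MP_3437a9_an.ThmN
import Pool.Agent.Lib.MP_3437a9_an.HB
import Pool.Agent.Lib.MP_3437a9_an.Tensor

set_option autoImplicit false
set_option linter.unusedVariables false
set_option linter.unusedSectionVars false

open scoped InnerProductSpace ComplexConjugate ENNReal

namespace Pool.Agent.MP3437a9

/-- index type of the distinguished generators -/
abbrev Fty := Option (Option (Option (Fin 3)))

/-- The universal constant. -/
noncomputable def dd : ℝ := (1 / 1000 : ℝ) ^ 2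

theorem dd_pos : 0 < dd := by unfold dd; norm_num

theorem opNorm_le_of_inner {H : Type*} [NormedAddCommGroup H] [InnerProductSpace ℂ H]
    (A : H →L[ℂ] H) (C : ℝ) (hC : 0 ≤ C) (h : ∀ η ξ, ‖⟪η, A ξ⟫_ℂ‖ ≤ C * (‖η‖ * ‖ξ‖)) : ‖A‖ ≤ C := by
  refine ContinuousLinearMap.opNorm_le_bound _ hC (fun ξ => ?_)
  have h1 := h (A ξ) ξ
  rw [inner_self_eq_norm_sq_to_K] at h1
  have h2 : ‖A ξ‖ ^ 2 ≤ C * (‖A ξ‖ * ‖ξ‖) := by
    have : ‖((‖A ξ‖ : ℂ)) ^ 2‖ = ‖A ξ‖ ^ 2 := by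
      rw [norm_pow, Complex.norm_real, norm_norm]
    rw [← this]; exact h1
  rcases (norm_nonneg (A ξ)).lt_or_eq with h3 | h3
  · have h4 : ‖A ξ‖ * ‖A ξ‖ ≤ ‖A ξ‖ * (C * ‖ξ‖) := by nlinarith
    exact le_of_mul_le_mul_left h4 h3
  · rw [← h3]; positivity

/-- Hahn–Banach dual form of Theorem N. -/
theorem exists_v (n : ℕ) (hn : 1 ≤ n) :
    ∃ v : (Fty → EE (Om n)) →ₗ[ℂ] ℂ, v (fun f => gen f n) = 1 ∧
      (∀ x : Fty → EE (Om n), ∀ c : ℝ, 0 ≤ c → (∀ f, ‖x f‖ ≤ c) → ‖v x‖ ≤ c / dd) ∧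
      (∀ Ψ : A1 →ₗ[ℂ] EE (Om n), ∀ K : ℝ, 0 ≤ K → (∀ x ∈ DD, ‖Ψ x‖ ≤ K * ‖x‖) →
        (∀ x ∈ DD, (∀ k, k ≠ n → x k = 0) → Ψ x = 0) →
        ‖v (fun f => Ψ (gen f))‖ ≤ K / (1 + dd)) := by
  have hd := dd_pos
  set C : Set (Fty → EE (Om n)) := {w | ∃ Ψ : A1 →ₗ[ℂ] EE (Om n),
    (∀ x ∈ DD, ‖Ψ x‖ ≤ (1 + dd) * ‖x‖) ∧ (∀ x ∈ DD, (∀ k, k ≠ n → x k = 0) → Ψ x = 0) ∧
    w = fun f => Ψ (gen f)} with hC
  obtain ⟨v, hv1, hv2, hv3⟩ := hb_sep C
    (by
      refine ⟨0, fun x hx => ?_, fun x hx _ => rfl, rfl⟩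
      have : 0 ≤ (1 + dd) * ‖x‖ := by positivity
      simpa using this)
    (by
      rintro _ ⟨Ψ, h1, h2, rfl⟩ _ ⟨Ψ', h1', h2', rfl⟩ a b ha hb hab
      refine ⟨(a : ℂ) • Ψ + (b : ℂ) • Ψ', fun x hx => ?_, fun x hx hk => ?_, rfl⟩
      · show ‖(a : ℂ) • Ψ x + (b : ℂ) • Ψ' x‖ ≤ _
        have e1 := h1 x hx
        have e2 := h1' x hx
        calc ‖(a : ℂ) • Ψ x + (b : ℂ) • Ψ' x‖ ≤ ‖(a : ℂ) • Ψ x‖ + ‖(b : ℂ) • Ψ' x‖ :=
              norm_add_le _ _
          _ = a * ‖Ψ x‖ + b * ‖Ψ' x‖ := by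
              rw [norm_smul, norm_smul, Complex.norm_real, Complex.norm_real,
                Real.norm_of_nonneg ha, Real.norm_of_nonneg hb]
          _ ≤ a * ((1 + dd) * ‖x‖) + b * ((1 + dd) * ‖x‖) := by gcongr
          _ = (a + b) * ((1 + dd) * ‖x‖) := by ring
          _ = _ := by rw [hab, one_mul]
      · show (a : ℂ) • Ψ x + (b : ℂ) • Ψ' x = 0
        rw [h2 x hx hk, h2' x hx hk]
        have e1 := smul_zero (A := EE (Om n)) (a : ℂ)
        have e2 := smul_zero (A := EE (Om n)) (b : ℂ)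
        exact (congrArg₂ (· + ·) e1 e2).trans (add_zero _))
    (by
      rintro _ ⟨Ψ, h1, h2, rfl⟩ c hc
      refine ⟨c • Ψ, fun x hx => ?_, fun x hx hk => ?_, rfl⟩
      · show ‖c • Ψ x‖ ≤ _
        rw [norm_smul, hc, one_mul]; exact h1 x hx
      · show c • Ψ x = 0
        rw [h2 x hx hk]
        exact smul_zero (A := EE (Om n)) c)
    (fun f => gen f n) dd hd
    (by
      rintro _ ⟨Ψ, h1, h2, rfl⟩
      by_contra hcon
      push Not at hcon
      refine thmN n hn Ψ h1 h2 (fun f => ?_)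
      exact (norm_le_pi_norm ((fun f => Ψ (gen f)) - (fun f => gen f n)) f).trans hcon.le)
  refine ⟨v, hv1, fun x c hc hx => ?_, fun Ψ K hK h1 h2 => ?_⟩
  · refine (hv2 x).trans ?_
    have : ‖x‖ ≤ c := (pi_norm_le_iff_of_nonneg hc).2 hx
    gcongr
  · by_cases hK0 : K = 0
    · have : (fun f => Ψ (gen f)) = 0 := by
        funext f
        have := h1 (gen f) (gen_mem f)
        rw [hK0, zero_mul] at this
        exact norm_le_zero_iff.1 this
      rw [this, map_zero, norm_zero]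
      positivity
    · have hKp : 0 < K := lt_of_le_of_ne hK (Ne.symm hK0)
      have hc : 0 < (1 + dd) / K := by positivity
      have := hv3 ((((1 + dd) / K : ℝ) : ℂ) • (fun f => Ψ (gen f)))
        ⟨(((1 + dd) / K : ℝ) : ℂ) • Ψ, fun x hx => by
          show ‖(((1 + dd) / K : ℝ) : ℂ) • Ψ x‖ ≤ _
          rw [norm_smul, Complex.norm_real, Real.norm_of_nonneg hc.le]
          calc (1 + dd) / K * ‖Ψ x‖ ≤ (1 + dd) / K * (K * ‖x‖) := by
                gcongr; exact h1 x hx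
            _ = (1 + dd) * ‖x‖ := by field_simp,
          fun x hx hk => by
          show (((1 + dd) / K : ℝ) : ℂ) • Ψ x = 0
          rw [h2 x hx hk]
          exact smul_zero (A := EE (Om n)) (((1 + dd) / K : ℝ) : ℂ), rfl⟩
      rw [map_smul, norm_smul, Complex.norm_real, Real.norm_of_nonneg hc.le] at this
      rw [le_div_iff₀ (by positivity)]
      calc ‖v (fun f => Ψ (gen f))‖ * (1 + dd)
          = K * ((1 + dd) / K * ‖v (fun f => Ψ (gen f))‖) := by field_simp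
        _ ≤ K * 1 := by gcongr
        _ = K := mul_one _

/-- Admissible multilinear maps. -/
def Good (n m : ℕ) (K : ℝ) (Θ : MultilinearMap ℂ (fun _ : Fin m => A1) (EE (JJ (Om n) m))) :
    Prop :=
  (∀ x : Fin m → A1, (∀ i, x i ∈ DD) → ‖Θ x‖ ≤ K * ∏ i, ‖x i‖) ∧
  (∀ x : Fin m → A1, (∀ i, x i ∈ DD) → (∃ i, ∀ k, k ≠ n → x i k = 0) → Θ x = 0)

/-- slice on the recursive index type -/
noncomputable def SlJ {ι : Type} [Fintype ι] {m : ℕ} (η ξ : EuclideanSpace ℂ ι) :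
    EE (JJ ι (m + 1)) →ₗ[ℂ] EE (JJ ι m) :=
  (Sl η ξ : EE (ι × JJ ι m) →ₗ[ℂ] EE (JJ ι m))

theorem SlJ_norm_le {ι : Type} [Fintype ι] {m : ℕ} (η ξ : EuclideanSpace ℂ ι)
    (T : EE (JJ ι (m + 1))) : ‖SlJ η ξ T‖ ≤ ‖η‖ * ‖ξ‖ * ‖T‖ :=
  Sl_norm_le (κ := JJ ι m) η ξ T

theorem SlJ_ten {ι : Type} [Fintype ι] {m : ℕ} (η ξ : EuclideanSpace ℂ ι)
    (y : Fin (m + 1) → EE ι) :
    SlJ η ξ (ten (m + 1) y) = ⟪η, y 0 ξ⟫_ℂ • ten m (Fin.tail y) :=
  Sl_tens (κ := JJ ι m) η ξ (y 0) (ten m (Fin.tail y))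

theorem exists_OpJ {ι : Type} [Fintype ι] {m : ℕ} {Y : Type} (Φ : (Y → EE (JJ ι m)) →ₗ[ℂ] ℂ) :
    ∃ Op : (Y → EE (JJ ι (m + 1))) →ₗ[ℂ] EE ι,
      ∀ (T : Y → EE (JJ ι (m + 1))) (η ξ : EuclideanSpace ℂ ι),
        ⟪η, Op T ξ⟫_ℂ = Φ (fun y => SlJ η ξ (T y)) :=
  exists_Op (ι := ι) (κ := JJ ι m) Φ

theorem Good_slice {n m : ℕ} {K : ℝ} (hK : 0 ≤ K)
    {Θ : MultilinearMap ℂ (fun _ : Fin (m + 1) => A1) (EE (JJ (Om n) (m + 1)))}
    (hΘ : Good n (m + 1) K Θ) (x : A1) (hx : x ∈ DD) (η ξ : EuclideanSpace ℂ (Om n)) :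
    Good n m (K * ‖x‖ * (‖η‖ * ‖ξ‖)) ((SlJ η ξ).compMultilinearMap (Θ.curryLeft x)) := by
  constructor
  · intro y hy
    have h1 := hΘ.1 (Fin.cons x y) (fun i => by
      refine Fin.cases ?_ (fun j => ?_) i
      · exact hx
      · exact hy j)
    rw [Fin.prod_univ_succ] at h1
    simp only [Fin.cons_zero, Fin.cons_succ] at h1
    have h2 := SlJ_norm_le η ξ (Θ (Fin.cons x y))
    show ‖SlJ η ξ (Θ (Fin.cons x y))‖ ≤ _
    calc ‖SlJ η ξ (Θ (Fin.cons x y))‖ ≤ ‖η‖ * ‖ξ‖ * ‖Θ (Fin.cons x y)‖ := h2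
      _ ≤ ‖η‖ * ‖ξ‖ * (K * (‖x‖ * ∏ i, ‖y i‖)) := by gcongr
      _ = _ := by ring
  · rintro y hy ⟨i, hi⟩
    have h1 := hΘ.2 (Fin.cons x y) (fun i => by
      refine Fin.cases ?_ (fun j => ?_) i
      · exact hx
      · exact hy j) ⟨i.succ, fun k hk => hi k hk⟩
    show SlJ η ξ (Θ (Fin.cons x y)) = 0
    rw [h1, map_zero]

theorem Good_zero_slice {n m : ℕ} {K : ℝ}
    {Θ : MultilinearMap ℂ (fun _ : Fin (m + 1) => A1) (EE (JJ (Om n) (m + 1)))}
    (hΘ : Good n (m + 1) K Θ) (x : A1) (hx : x ∈ DD) (h : ∀ k, k ≠ n → x k = 0)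
    (y : Fin m → A1) (hy : ∀ i, y i ∈ DD) : Θ (Fin.cons x y) = 0 :=
  hΘ.2 (Fin.cons x y) (fun i => by
      refine Fin.cases ?_ (fun j => ?_) i
      · exact hx
      · exact hy j) ⟨0, h⟩

/-- **Theorem T**. -/
theorem thmT (n : ℕ) (hn : 1 ≤ n) (m : ℕ) :
    ∃ Φ : ((Fin m → Fty) → EE (JJ (Om n) m)) →ₗ[ℂ] ℂ,
      Φ (fun y => ten m (fun i => gen (y i) n)) = 1 ∧
      (∀ (T : (Fin m → Fty) → EE (JJ (Om n) m)) (c : ℝ), 0 ≤ c → (∀ y, ‖T y‖ ≤ c) →
        ‖Φ T‖ ≤ c / dd ^ m) ∧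
      (∀ (K : ℝ) (Θ : MultilinearMap ℂ (fun _ : Fin m => A1) (EE (JJ (Om n) m))), 0 ≤ K →
        Good n m K Θ → ‖Φ (fun y => Θ (fun i => gen (y i)))‖ ≤ K / (1 + dd) ^ m) := by
  have hd := dd_pos
  induction m with
  | zero =>
    let u : EuclideanSpace ℂ (JJ (Om n) 0) := (EuclideanSpace.single () 1 : EuclideanSpace ℂ Unit)
    have hu : ‖u‖ = 1 := by
      show ‖(EuclideanSpace.single () 1 : EuclideanSpace ℂ Unit)‖ = 1
      simp
    let d : Fin 0 → Fty := Fin.elim0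
    have hb : ∀ A : EE (JJ (Om n) 0), ‖⟪u, A u⟫_ℂ‖ ≤ ‖A‖ := by
      intro A
      calc ‖⟪u, A u⟫_ℂ‖ ≤ ‖u‖ * ‖A u‖ := norm_inner_le_norm _ _
        _ ≤ ‖u‖ * (‖A‖ * ‖u‖) := by gcongr; exact A.le_opNorm _
        _ = ‖A‖ := by rw [hu]; ring
    refine ⟨{ toFun := fun T => ⟪u, T d u⟫_ℂ
              map_add' := fun T T' => ?_
              map_smul' := fun c T => ?_ }, ?_, ?_, ?_⟩
    · show ⟪u, (T d + T' d) u⟫_ℂ = _
      rw [add_apply, inner_add_right]
    · show ⟪u, (c • T d) u⟫_ℂ = _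
      rw [smul_apply, inner_smul_right]; rfl
    · show ⟪u, (1 : EE (JJ (Om n) 0)) u⟫_ℂ = 1
      show ⟪u, u⟫_ℂ = 1
      rw [inner_self_eq_norm_sq_to_K, hu]; simp
    · intro T c hc hT
      show ‖⟪u, T d u⟫_ℂ‖ ≤ _
      rw [pow_zero, div_one]
      exact (hb _).trans (hT d)
    · intro K Θ hK hΘ
      show ‖⟪u, Θ (fun i => gen (d i)) u⟫_ℂ‖ ≤ _
      rw [pow_zero, div_one]
      refine (hb _).trans ?_
      have := hΘ.1 (fun i => gen (d i)) (fun i => gen_mem _)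
      simpa using this
  | succ m ih =>
    obtain ⟨Φ, ha, hb, hc⟩ := ih
    obtain ⟨v, hv1, hv2, hv3⟩ := exists_v n hn
    obtain ⟨Op, hOp⟩ := exists_OpJ (ι := Om n) Φ
    -- the key norm bound for `Op`
    have hOpn : ∀ (T : (Fin m → Fty) → EE (JJ (Om n) (m + 1))) (c : ℝ), 0 ≤ c →
        (∀ y, ‖T y‖ ≤ c) → ‖Op T‖ ≤ c / dd ^ m := by
      intro T c hc0 hT
      refine opNorm_le_of_inner _ _ (by positivity) (fun η ξ => ?_)
      rw [hOp]
      refine (hb _ (‖η‖ * ‖ξ‖ * c) (by positivity) (fun y => ?_)).trans (le_of_eq (by ring))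
      exact (SlJ_norm_le η ξ (T y)).trans (by gcongr; exact hT y)
    have hOpt : ∀ f : Fty, Op (fun y => ten (m + 1)
        (fun i => gen ((Fin.cons f y : Fin (m + 1) → Fty) i) n)) = gen f n := by
      intro f
      refine ContinuousLinearMap.ext (fun ξ => ext_inner_left ℂ (fun η => ?_))
      rw [hOp]
      have e : (fun y : Fin m → Fty => SlJ η ξ (ten (m + 1)
          (fun i => gen ((Fin.cons f y : Fin (m + 1) → Fty) i) n)))
          = ⟪η, gen f n ξ⟫_ℂ • (fun y : Fin m → Fty => ten m (fun i => gen (y i) n)) := by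
        funext y
        exact SlJ_ten η ξ (fun i => gen ((Fin.cons f y : Fin (m + 1) → Fty) i) n)
      rw [e, map_smul, ha, smul_eq_mul, mul_one]
    refine ⟨{ toFun := fun T => v (fun f => Op (fun y => T (Fin.cons f y)))
              map_add' := fun T T' => ?_
              map_smul' := fun c T => ?_ }, ?_, ?_, ?_⟩
    · rw [← map_add]
      congr 1
      funext f
      exact map_add Op (fun y => T (Fin.cons f y)) (fun y => T' (Fin.cons f y))
    · rw [← map_smul]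
      congr 1
      funext f
      exact map_smul Op c (fun y => T (Fin.cons f y))
    · show v (fun f => Op (fun y => ten (m + 1)
        (fun i => gen ((Fin.cons f y : Fin (m + 1) → Fty) i) n))) = 1
      rw [← hv1]
      congr 1
      funext f
      exact hOpt f
    · intro T c hc0 hT
      show ‖v (fun f => Op (fun y => T (Fin.cons f y)))‖ ≤ _
      have h1 := hv2 (fun f => Op (fun y => T (Fin.cons f y))) (c / dd ^ m) (by positivity)
        (fun f => hOpn _ c hc0 (fun y => hT _))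
      refine h1.trans (le_of_eq ?_)
      rw [pow_succ]; field_simp
    · intro K Θ hK hΘ
      show ‖v (fun f => Op (fun y => Θ (fun i =>
        gen ((Fin.cons f y : Fin (m + 1) → Fty) i))))‖ ≤ _
      have e0 : ∀ (f : Fty) (y : Fin m → Fty),
          (fun i => gen ((Fin.cons f y : Fin (m + 1) → Fty) i))
            = (Fin.cons (gen f) (fun i => gen (y i)) : Fin (m + 1) → A1) := by
        intro f y
        funext i
        refine Fin.cases ?_ (fun j => ?_) i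
        · rfl
        · rfl
      let Ψ : A1 →ₗ[ℂ] EE (Om n) :=
        { toFun := fun x => Op (fun y => Θ.curryLeft x (fun i => gen (y i)))
          map_add' := fun x x' => by
            rw [← map_add]
            congr 1
            funext y
            show Θ.curryLeft (x + x') _ = Θ.curryLeft x _ + Θ.curryLeft x' _
            rw [map_add]; rfl
          map_smul' := fun c x => by
            rw [← map_smul]
            congr 1
            funext y
            show Θ.curryLeft (c • x) _ = c • Θ.curryLeft x _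
            rw [map_smul]; rfl }
      have hΨdef : ∀ x, Ψ x = Op (fun y => Θ.curryLeft x (fun i => gen (y i))) := fun x => rfl
      have h1 : ∀ x ∈ DD, ‖Ψ x‖ ≤ (K / (1 + dd) ^ m) * ‖x‖ := by
        intro x hx
        refine opNorm_le_of_inner _ _ (by positivity) (fun η ξ => ?_)
        rw [hΨdef, hOp]
        have h2 := hc _ _ (by positivity) (Good_slice hK hΘ x hx η ξ)
        refine (le_of_eq ?_).trans (h2.trans (le_of_eq (by ring)))
        rfl
      have h2 : ∀ x ∈ DD, (∀ k, k ≠ n → x k = 0) → Ψ x = 0 := by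
        intro x hx hk
        rw [hΨdef]
        have : (fun y : Fin m → Fty => Θ.curryLeft x (fun i => gen (y i))) = 0 := by
          funext y
          exact Good_zero_slice hΘ x hx hk _ (fun i => gen_mem _)
        rw [this]
        exact map_zero Op
      have h3 := hv3 Ψ _ (by positivity) h1 h2
      have e1 : (fun f => Op (fun y => Θ (fun i => gen ((Fin.cons f y : Fin (m + 1) → Fty) i))))
          = fun f => Ψ (gen f) := by
        funext f
        rw [hΨdef]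
        congr 1
        funext y
        rw [e0]
        rfl
      rw [e1]
      refine h3.trans (le_of_eq ?_)
      rw [pow_succ]; field_simp

end Pool.Agent.MP3437a9
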