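import Pool.Agent.Lib.MP_3437a9_an.Row
import Pool.Agent.Lib.MP_3437a9_an.ThmT

set_option autoImplicit false
set_option linter.unusedVariables false
set_option linter.unusedSectionVars false

open scoped InnerProductSpace ComplexConjugate ENNReal Topology
open Filter

namespace Pool.Agent.MP3437a9

/-- evaluation at a coordinate -/
noncomputable def ev2 (m n : ℕ) : A2 →ₗ[ℂ] EE (JJ (Om n) m) := A2.co (m, n)

theorem ev2_apply (m n : ℕ) (z : A2) : ev2 m n z = z (m, n) := rfl

theorem main_abs (B : Type) [NonUnitalCStarAlgebra B] (j : B →ₗ[ℂ] A2) (hj : ∀ x, ‖j x‖ = ‖x‖)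
    (hr : ∀ (m : ℕ) (y : Fin m → A1), (∀ i, y i ∈ DD) → ∃ b, j b = rowM m y)
    (P : B →L[ℂ] B)
    (hP1 : ∀ x, Tendsto (fun p : ℕ × ℕ => ‖j (P x) p‖) cofinite (𝓝 0))
    (hP2 : ∀ x, Tendsto (fun p : ℕ × ℕ => ‖j x p‖) cofinite (𝓝 0) → P x = x) : False := by
  have hd := dd_pos
  have hker : LinearMap.ker j = ⊥ := by
    rw [LinearMap.ker_eq_bot']
    intro x hx
    have := hj x
    rw [hx, norm_zero] at this
    exact norm_eq_zero.1 this.symm
  obtain ⟨g, hg⟩ := j.exists_leftInverse_of_injective hker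
  have hg' : ∀ x, g (j x) = x := fun x => by
    have := congrArg (fun φ => φ x) hg
    exact this
  let Pl : B →ₗ[ℂ] B := P
  let T : A2 →ₗ[ℂ] A2 := j.comp (Pl.comp g)
  have hT : ∀ b, T (j b) = j (P b) := by
    intro b
    show j (P (g (j b))) = _
    rw [hg']
  let Θ : ∀ m n : ℕ, MultilinearMap ℂ (fun _ : Fin m => A1) (EE (JJ (Om n) m)) := fun m n =>
    ((ev2 m n).comp (LinearMap.id - T)).compMultilinearMap (rowM m)
  have hΘ : ∀ (m n : ℕ) (y : Fin m → A1), Θ m n y = rowM m y (m, n) - T (rowM m y) (m, n) :=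
    fun m n y => rfl
  have hP0 : 0 ≤ ‖P‖ := norm_nonneg _
  have hgood : ∀ m n : ℕ, Good n m (1 + ‖P‖) (Θ m n) := by
    intro m n
    constructor
    · intro y hy
      obtain ⟨b, hb⟩ := hr m y hy
      rw [hΘ, ← hb, hT]
      have h1 : ‖j b (m, n) - j (P b) (m, n)‖ ≤ ‖j b‖ + ‖j (P b)‖ :=
        (norm_sub_le _ _).trans (add_le_add (A2.norm_c_le _ _) (A2.norm_c_le _ _))
      have h2 : ‖j (P b)‖ ≤ ‖P‖ * ‖j b‖ := by
        rw [hj, hj]; exact P.le_opNorm b
      have h3 : ‖j b‖ ≤ ∏ i, ‖y i‖ := by rw [hb]; exact rowM_norm_le m y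
      calc ‖j b (m, n) - j (P b) (m, n)‖ ≤ ‖j b‖ + ‖P‖ * ‖j b‖ := by linarith
        _ = (1 + ‖P‖) * ‖j b‖ := by ring
        _ ≤ (1 + ‖P‖) * ∏ i, ‖y i‖ := by gcongr
    · rintro y hy ⟨i, hi⟩
      obtain ⟨b, hb⟩ := hr m y hy
      have h1 : Tendsto (fun p : ℕ × ℕ => ‖j b p‖) cofinite (𝓝 0) := by
        refine tendsto_nhds_of_eventually_eq ?_
        rw [eventually_cofinite]
        refine Set.Finite.subset (Set.finite_singleton (m, n)) ?_
        intro p hp
        by_contra hne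
        apply hp
        rw [hb, rowM_supp m n y i hi p hne, norm_zero]
      rw [hΘ, ← hb, hT, hP2 b h1, sub_self]
  have hbd : ∀ m : ℕ, (1 : ℝ) ≤ (1 + ‖P‖) / (1 + dd) ^ m := by
    intro m
    -- the error term
    let c : ℕ → ℝ := fun n => ∑ y : Fin m → Fty, ‖T (rowM m (fun i => gen (y i))) (m, n)‖
    have hc0 : ∀ n, 0 ≤ c n := fun n => Finset.sum_nonneg (fun y _ => norm_nonneg _)
    have hct : Tendsto c atTop (𝓝 0) := by
      have h0 : (0 : ℝ) = ∑ y : Fin m → Fty, (0 : ℝ) := by simp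
      rw [h0]
      refine tendsto_finsetSum _ (fun y _ => ?_)
      obtain ⟨b, hb⟩ := hr m (fun i => gen (y i)) (fun i => gen_mem _)
      have h1 := hP1 b
      have h2 : Tendsto (fun n : ℕ => ((m, n) : ℕ × ℕ)) atTop cofinite := by
        rw [← Nat.cofinite_eq_atTop]
        exact Function.Injective.tendsto_cofinite (fun a b h => by
          simpa using h)
      have h3 := h1.comp h2
      refine h3.congr (fun n => ?_)
      show ‖j (P b) (m, n)‖ = _
      rw [← hb, hT]
    have hineq : ∀ n : ℕ, 1 ≤ n → (1 : ℝ) ≤ (1 + ‖P‖) / (1 + dd) ^ m + c n / dd ^ m := by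
      intro n hn
      obtain ⟨Φ, ha, hb, hcc⟩ := thmT n hn m
      have h1 := hcc (1 + ‖P‖) (Θ m n) (by positivity) (hgood m n)
      have h2 := hb (fun y => T (rowM m (fun i => gen (y i))) (m, n)) (c n) (hc0 n)
        (fun y => Finset.single_le_sum
          (f := fun y : Fin m → Fty => ‖T (rowM m (fun i => gen (y i))) (m, n)‖)
          (fun y _ => norm_nonneg _) (Finset.mem_univ y))
      have h3 : (fun y : Fin m → Fty => ten m (fun i => gen (y i) n))
          = (fun y => Θ m n (fun i => gen (y i)))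
            + (fun y => T (rowM m (fun i => gen (y i))) (m, n)) := by
        funext y
        show _ = Θ m n (fun i => gen (y i)) + T (rowM m (fun i => gen (y i))) (m, n)
        rw [hΘ, sub_add_cancel, rowM_apply, rowFun_self]
      rw [h3, map_add] at ha
      have h4 := (norm_add_le _ _).trans (add_le_add h1 h2)
      rw [ha, norm_one] at h4
      exact h4
    have hlim : Tendsto (fun n => (1 + ‖P‖) / (1 + dd) ^ m + c n / dd ^ m) atTop
        (𝓝 ((1 + ‖P‖) / (1 + dd) ^ m + 0 / dd ^ m)) :=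
      tendsto_const_nhds.add (hct.div_const _)
    rw [zero_div, add_zero] at hlim
    exact ge_of_tendsto hlim (eventually_atTop.2 ⟨1, hineq⟩)
  have h5 : Tendsto (fun m : ℕ => (1 + dd) ^ m) atTop atTop :=
    tendsto_pow_atTop_atTop_of_one_lt (by linarith)
  obtain ⟨m, hm⟩ := (h5.eventually_gt_atTop (1 + ‖P‖)).exists
  have h6 := hbd m
  rw [le_div_iff₀ (by positivity), one_mul] at h6
  linarith

end Pool.Agent.MP3437a9
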