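import Pool.Agent.Lib.MP_3437a9_an.Row

set_option autoImplicit false
set_option linter.unusedVariables false
set_option linter.unusedSectionVars false

open scoped InnerProductSpace ComplexConjugate ENNReal Topology
open Filter

namespace Pool.Agent.MP3437a9

/-- A multilinear map sending tuples of generators into a submodule sends tuples of elements of
the span into it. -/
theorem multi_span {m : ℕ} {V W : Type*} [AddCommMonoid V] [Module ℂ V] [AddCommMonoid W]
    [Module ℂ W] (f : MultilinearMap ℂ (fun _ : Fin m => V) W)
    (G : Set V) (N : Submodule ℂ W) (h : ∀ y : Fin m → V, (∀ i, y i ∈ G) → f y ∈ N)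
    (y : Fin m → V) (hy : ∀ i, y i ∈ Submodule.span ℂ G) : f y ∈ N := by
  classical
  have key : ∀ S : Finset (Fin m), ∀ y : Fin m → V, (∀ i ∈ S, y i ∈ Submodule.span ℂ G) →
      (∀ i, i ∉ S → y i ∈ G) → f y ∈ N := by
    intro S
    induction S using Finset.induction_on with
    | empty => exact fun y _ h2 => h y (fun i => h2 i (Finset.notMem_empty i))
    | insert a S ha ih =>
      intro y h1 h2
      have h3 : ∀ x ∈ Submodule.span ℂ G, f (Function.update y a x) ∈ N := by
        intro x hx
        induction hx using Submodule.span_induction with
        | mem x hx =>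
          refine ih _ (fun i hi => ?_) (fun i hi => ?_)
          · have hia : i ≠ a := fun h' => ha (h' ▸ hi)
            rw [Function.update_of_ne hia]
            exact h1 i (Finset.mem_insert_of_mem hi)
          · by_cases hia : i = a
            · subst hia
              rw [Function.update_self]; exact hx
            · rw [Function.update_of_ne hia]
              exact h2 i (by simp [hia, hi])
        | zero =>
          rw [f.map_update_zero]; exact N.zero_mem
        | add x x' _ _ ihx ihx' =>
          rw [f.map_update_add]; exact N.add_mem ihx ihx'
        | smul c x _ ihx =>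
          rw [f.map_update_smul]; exact N.smul_mem _ ihx
      have h4 := h3 (y a) (h1 a (Finset.mem_insert_self _ _))
      rwa [Function.update_eq_self] at h4
  exact key Finset.univ y (fun i _ => hy i) (fun i hi => absurd (Finset.mem_univ i) hi)

/-- Countable generating set. -/
def S0 : Set A2 := ⋃ m : ℕ, (rowM m) '' {y | ∀ i, y i ∈ GG}

theorem countable_S0 : S0.Countable := by
  refine Set.countable_iUnion (fun m => Set.Countable.image ?_ _)
  exact Set.countable_pi (fun _ => countable_GG)

theorem countable_subsemigroup_closure {A : Type*} [Semigroup A] (s : Set A) (hs : s.Countable) :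
    (Subsemigroup.closure s : Set A).Countable := by
  have hc : Countable s := hs
  have hcf : Countable (FreeSemigroup s) := by
    have : Function.Injective (fun w : FreeSemigroup s => (w.head, w.tail)) := by
      intro a b h
      cases a; cases b
      simp only [Prod.mk.injEq] at h
      obtain ⟨h1, h2⟩ := h
      subst h1; subst h2; rfl
    exact this.countable
  let φ : FreeSemigroup s →ₙ* A := FreeSemigroup.lift (fun x : s => (x : A))
  have h1 : Subsemigroup.closure s ≤ φ.srange := by
    rw [Subsemigroup.closure_le]
    intro x hx
    exact ⟨FreeSemigroup.of ⟨x, hx⟩, FreeSemigroup.lift_of _ _⟩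
  refine Set.Countable.mono h1 ?_
  rw [MulHom.coe_srange]
  exact Set.countable_range _

/-- The dense countably generated star-subalgebra. -/
noncomputable def B0 : NonUnitalStarSubalgebra ℂ A2 := NonUnitalStarAlgebra.adjoin ℂ S0

/-- Our separable C*-algebra. -/
noncomputable def BB : NonUnitalStarSubalgebra ℂ A2 := B0.topologicalClosure

instance closed_BB : IsClosed (BB : Set A2) := B0.isClosed_topologicalClosure

theorem separable_B0 : TopologicalSpace.IsSeparable (B0 : Set A2) := by
  have h1 : (B0 : Set A2) = (Submodule.span ℂ (Subsemigroup.closure (S0 ∪ star S0) : Set A2) :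
      Set A2) := by
    have := NonUnitalStarAlgebra.adjoin_eq_span (R := ℂ) S0
    rw [← this]
    rfl
  rw [h1]
  refine TopologicalSpace.IsSeparable.span ?_
  refine (countable_subsemigroup_closure _ (countable_S0.union ?_)).isSeparable
  have : star S0 = star '' S0 := (Set.image_star).symm
  rw [this]
  exact countable_S0.image _

theorem separable_BB : TopologicalSpace.IsSeparable (BB : Set A2) :=
  separable_B0.closure

theorem rowM_mem_BB (m : ℕ) (y : Fin m → A1) (hy : ∀ i, y i ∈ DD) : rowM m y ∈ BB := by
  have h := multi_span (rowM m) GG BB.toNonUnitalSubalgebra.toSubmodule (fun y hy => ?_) y hy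
  · exact h
  · have h1 : rowM m y ∈ B0 := by
      apply NonUnitalStarAlgebra.subset_adjoin ℂ S0
      exact Set.mem_iUnion.2 ⟨m, y, hy, rfl⟩
    exact B0.le_topologicalClosure h1

end Pool.Agent.MP3437a9
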