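import Pool.Agent.Lib.MP_3437a9_an.Fin
import Pool.Agent.Lib.MP_3437a9_an.Sep

set_option autoImplicit false
set_option linter.unusedVariables false
set_option linter.unusedSectionVars false

open scoped InnerProductSpace ComplexConjugate ENNReal Topology
open Filter

namespace Pool.Agent.MP3437a9

/-- The ideal of elements whose coordinates tend to zero. -/
noncomputable def cI (B : Type) [NonUnitalCStarAlgebra B] (j : B →ₗ[ℂ] A2) : Submodule ℂ B where
  carrier := {x | Tendsto (fun p : ℕ × ℕ => ‖j x p‖) cofinite (𝓝 0)}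
  zero_mem' := by
    show Tendsto (fun p : ℕ × ℕ => ‖j 0 p‖) cofinite (𝓝 0)
    have : (fun p : ℕ × ℕ => ‖j 0 p‖) = fun _ => 0 := by
      funext p
      rw [map_zero]
      exact norm_zero
    rw [this]
    exact tendsto_const_nhds
  add_mem' := by
    intro x y hx hy
    have h := Tendsto.add hx hy
    rw [add_zero] at h
    refine squeeze_zero (fun p => norm_nonneg _) (fun p => ?_) h
    rw [map_add]
    exact norm_add_le (j x p) (j y p)
  smul_mem' := by
    intro c x hx
    have h := Tendsto.const_mul ‖c‖ hx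
    rw [mul_zero] at h
    refine squeeze_zero (fun p => norm_nonneg _) (fun p => ?_) h
    rw [map_smul]
    exact norm_smul_le c (j x p)

theorem mem_cI {B : Type} [NonUnitalCStarAlgebra B] {j : B →ₗ[ℂ] A2} {x : B} :
    x ∈ cI B j ↔ Tendsto (fun p : ℕ × ℕ => ‖j x p‖) cofinite (𝓝 0) := Iff.rfl

theorem final_abs (B : Type) [NonUnitalCStarAlgebra B] (j : B →ₗ[ℂ] A2) (hj : ∀ x, ‖j x‖ = ‖x‖)
    (hjm : ∀ x y, j (x * y) = j x * j y)
    (hr : ∀ (m : ℕ) (y : Fin m → A1), (∀ i, y i ∈ DD) → ∃ b, j b = rowM m y) :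
    ∃ I : Submodule ℂ B, IsClosed (I : Set B) ∧ (∀ a ∈ I, ∀ b : B, b * a ∈ I ∧ a * b ∈ I) ∧
      ¬ ∃ P : B →L[ℂ] B, (∀ x, P x ∈ I) ∧ ∀ x ∈ I, P x = x := by
  refine ⟨cI B j, ?_, ?_, ?_⟩
  · rw [← isSeqClosed_iff_isClosed]
    intro u x hu hux
    show Tendsto (fun p : ℕ × ℕ => ‖j x p‖) cofinite (𝓝 0)
    rw [Metric.tendsto_nhds]
    intro ε hε
    rw [Metric.tendsto_atTop] at hux
    obtain ⟨N, hN⟩ := hux (ε / 2) (by positivity)
    have h1 := hN N le_rfl
    rw [dist_eq_norm] at h1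
    have h2 : Tendsto (fun p : ℕ × ℕ => ‖j (u N) p‖) cofinite (𝓝 0) := hu N
    rw [Metric.tendsto_nhds] at h2
    filter_upwards [h2 (ε / 2) (by positivity)] with p hp
    rw [Real.dist_eq, sub_zero, abs_of_nonneg (norm_nonneg _)] at hp ⊢
    have h3 : ‖j x p‖ ≤ ‖j (u N - x)‖ + ‖j (u N) p‖ := by
      have e : j x p = j (u N) p - j (u N - x) p := by
        rw [map_sub]
        show j x p = j (u N) p - (j (u N) p - j x p)
        abel
      rw [e, add_comm]
      exact (norm_sub_le _ _).trans (add_le_add le_rfl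
        (A2.norm_c_le _ _))
    rw [hj] at h3
    linarith
  · intro a ha b
    rw [mem_cI] at ha
    constructor
    · rw [mem_cI]
      have h := Tendsto.const_mul ‖j b‖ ha
      rw [mul_zero] at h
      refine squeeze_zero (fun p => norm_nonneg _) (fun p => ?_) h
      rw [hjm]
      exact (norm_mul_le (j b p) (j a p)).trans (mul_le_mul_of_nonneg_right
        (A2.norm_c_le _ _) (norm_nonneg _))
    · rw [mem_cI]
      have h := Tendsto.mul_const ‖j b‖ ha
      rw [zero_mul] at h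
      refine squeeze_zero (fun p => norm_nonneg _) (fun p => ?_) h
      rw [hjm]
      exact (norm_mul_le (j a p) (j b p)).trans (mul_le_mul_of_nonneg_left
        (A2.norm_c_le _ _) (norm_nonneg _))
  · rintro ⟨P, hP1, hP2⟩
    exact main_abs B j hj hr P (fun x => hP1 x) (fun x hx => hP2 x hx)

/-- The inclusion of our algebra into the ambient product. -/
noncomputable def jB : BB →ₗ[ℂ] A2 where
  toFun x := x
  map_add' _ _ := rfl
  map_smul' _ _ := rfl

theorem sepBB : TopologicalSpace.SeparableSpace BB := separable_BB.separableSpace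

theorem final_BB : ∃ I : Submodule ℂ BB, IsClosed (I : Set BB) ∧
    (∀ a ∈ I, ∀ b : BB, b * a ∈ I ∧ a * b ∈ I) ∧
      ¬ ∃ P : BB →L[ℂ] BB, (∀ x, P x ∈ I) ∧ ∀ x ∈ I, P x = x :=
  final_abs BB jB (fun x => rfl) (fun x y => rfl) (fun m y hy => ⟨⟨rowM m y, rowM_mem_BB m y hy⟩, rfl⟩)

end Pool.Agent.MP3437a9
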