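import Pool.Agent.Lib.MP_3437a9_an.Comb

set_option autoImplicit false
set_option linter.unusedVariables false
set_option linter.unusedSectionVars false

open scoped InnerProductSpace ComplexConjugate ENNReal

namespace Pool.Agent.MP3437a9

/-- Pairs of binary strings of length `k`. -/
abbrev Om (k : ℕ) := (Fin k → ZMod 2) × (Fin k → ZMod 2)

def emb {k : ℕ} (x : Fin k → ZMod 2) : Str := fun j =>
  (if h : j < k then x ⟨j, h⟩ else 0, if h : j + 1 = k then x ⟨j, by omega⟩ else 0)

def ell {k : ℕ} : Fin 3 → (Fin k → ZMod 2) → (Fin k → ZMod 2)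
  | 0, x => x
  | 1, x => fun j => if h : j.1 + 1 < k then x ⟨j.1 + 1, h⟩ else 0
  | 2, x => fun j => if j.1 + 1 = k then x j else 0

def actO {k : ℕ} : Option (Fin 3) → Om k → Om k
  | none, ω => (ω.2, ω.1)
  | some T, ω => (ω.1, ω.2 + ell T ω.1)

def kap {k : ℕ} (ω : Om k) : XX := (emb ω.1, emb ω.2)

theorem emb_add {k : ℕ} (x y : Fin k → ZMod 2) : emb (x + y) = emb x + emb y := by
  funext j
  refine Prod.ext ?_ ?_
  · show (if h : j < k then _ else _) = (if h : j < k then _ else _) + (if h : j < k then _ else _)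
    split_ifs <;> simp
  · show (if h : j + 1 = k then _ else _)
      = (if h : j + 1 = k then _ else _) + (if h : j + 1 = k then _ else _)
    split_ifs <;> simp

theorem emb_ell {k : ℕ} (T : Fin 3) (x : Fin k → ZMod 2) : emb (ell T x) = Lm T (emb x) := by
  funext j
  match T with
  | 0 => rfl
  | 1 =>
    refine Prod.ext ?_ ?_
    · show (if h : j < k then (if h : j + 1 < k then x ⟨j + 1, h⟩ else 0) else 0)
        = (if h : j + 1 < k then x ⟨j + 1, h⟩ else 0)
      split_ifs <;> first | rfl | omega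
    · show (if h : j + 1 = k then (if h : j + 1 < k then x ⟨j + 1, h⟩ else 0) else 0) = 0
      split_ifs <;> first | rfl | omega
  | 2 =>
    refine Prod.ext ?_ ?_
    · show (if h : j < k then (if j + 1 = k then x ⟨j, h⟩ else 0) else 0)
        = (if h : j + 1 = k then x ⟨j, by omega⟩ else 0)
      split_ifs <;> first | rfl | omega
    · show (if h : j + 1 = k then (if j + 1 = k then x ⟨j, by omega⟩ else 0) else 0)
        = (if h : j + 1 = k then x ⟨j, by omega⟩ else 0)
      split_ifs <;> rfl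

theorem kap_add {k : ℕ} (ω ω' : Om k) : kap (ω + ω') = kap ω + kap ω' :=
  Prod.ext (emb_add _ _) (emb_add _ _)

theorem kap_act {k : ℕ} (s : Option (Fin 3)) (ω : Om k) : kap (actO s ω) = act s (kap ω) := by
  match s with
  | none => rfl
  | some T =>
    refine Prod.ext rfl ?_
    show emb (ω.2 + ell T ω.1) = emb ω.2 + Lm T (emb ω.1)
    rw [emb_add, emb_ell]

theorem actO_invol {k : ℕ} (s : Option (Fin 3)) (ω : Om k) : actO s (actO s ω) = ω := by
  match s with
  | none => rfl
  | some T =>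
    refine Prod.ext rfl ?_
    show ω.2 + ell T ω.1 + ell T ω.1 = ω.2
    funext j
    exact z2 _ _

theorem Lm_add (T : Fin 3) (χ χ' : Str) : Lm T (χ + χ') = Lm T χ + Lm T χ' := by
  funext j
  match T with
  | 0 => rfl
  | 1 => exact Prod.ext rfl (by show (0 : ZMod 2) = 0 + 0; simp)
  | 2 => rfl

theorem act_add (s : Option (Fin 3)) (κ κ' : XX) : act s (κ + κ') = act s κ + act s κ' := by
  match s with
  | none => rfl
  | some T =>
    refine Prod.ext rfl ?_
    show κ.2 + κ'.2 + Lm T (κ.1 + κ'.1) = (κ.2 + Lm T κ.1) + (κ'.2 + Lm T κ'.1)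
    rw [Lm_add]; abel

theorem act_invol (s : Option (Fin 3)) (κ : XX) : act s (act s κ) = κ := by
  match s with
  | none => rfl
  | some T =>
    refine Prod.ext rfl ?_
    show κ.2 + Lm T κ.1 + Lm T κ.1 = κ.2
    funext j
    refine Prod.ext (z2 _ _) (z2 _ _)

theorem countable_FL : {E : Set XX | FL E}.Countable := by
  -- every finite-level set is a preimage under a truncation map to a finite type
  have key : {E : Set XX | FL E} ⊆ ⋃ N : ℕ, Set.range
      (fun S : Set ((Fin N → ZMod 2 × ZMod 2) × (Fin N → ZMod 2 × ZMod 2)) =>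
        {κ : XX | ((fun i => κ.1 i, fun i => κ.2 i) :
          (Fin N → ZMod 2 × ZMod 2) × (Fin N → ZMod 2 × ZMod 2)) ∈ S}) := by
    rintro E ⟨N, hN⟩
    rw [Set.mem_iUnion]
    refine ⟨N, ⟨{p | ∃ κ ∈ E, ((fun i => κ.1 i, fun i => κ.2 i) :
          (Fin N → ZMod 2 × ZMod 2) × (Fin N → ZMod 2 × ZMod 2)) = p}, ?_⟩⟩
    ext κ
    constructor
    · rintro ⟨κ', hκ', h⟩
      refine (hN κ κ' (fun j hj => ?_)).2 hκ'
      have h1 := congrArg (fun p => p.1 ⟨j, hj⟩) h
      have h2 := congrArg (fun p => p.2 ⟨j, hj⟩) h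
      exact ⟨h1.symm, h2.symm⟩
    · intro h
      exact ⟨κ, h, rfl⟩
  refine Set.Countable.mono key (Set.countable_iUnion (fun N => ?_))
  exact Set.countable_range _

section Ops

variable {ι : Type*} [Fintype ι]

/-- Reindexing operator. -/
noncomputable def permOp (e : ι → ι) : EuclideanSpace ℂ ι →L[ℂ] EuclideanSpace ℂ ι :=
  LinearMap.toContinuousLinearMap
    { toFun := fun f => WithLp.toLp 2 (fun i => f (e i))
      map_add' := fun f g => rfl
      map_smul' := fun c f => rfl }

/-- Diagonal operator. -/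
noncomputable def diagOp (g : ι → ℂ) : EuclideanSpace ℂ ι →L[ℂ] EuclideanSpace ℂ ι :=
  LinearMap.toContinuousLinearMap
    { toFun := fun f => WithLp.toLp 2 (fun i => g i * f i)
      map_add' := fun f f' => by
        ext i; simp [mul_add]
      map_smul' := fun c f => by
        ext i; simp; ring }

@[simp] theorem permOp_apply (e : ι → ι) (f : EuclideanSpace ℂ ι) (i : ι) :
    permOp e f i = f (e i) := rfl

@[simp] theorem diagOp_apply (g : ι → ℂ) (f : EuclideanSpace ℂ ι) (i : ι) :
    diagOp g f i = g i * f i := rfl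

theorem permOp_mul_self (e : ι → ι) (he : ∀ i, e (e i) = i) : permOp e * permOp e = 1 := by
  ext f i
  show f (e (e i)) = f i
  rw [he]

theorem permOp_star (e : ι → ι) (he : ∀ i, e (e i) = i) : star (permOp e) = permOp e := by
  rw [ContinuousLinearMap.star_eq_adjoint]
  symm
  rw [ContinuousLinearMap.eq_adjoint_iff]
  intro f g
  rw [PiLp.inner_apply, PiLp.inner_apply]
  have := Equiv.sum_comp (⟨e, e, he, he⟩ : Equiv.Perm ι) (fun i => ⟪f i, (permOp e g) i⟫_ℂ)
  rw [← this]
  refine Finset.sum_congr rfl (fun i _ => ?_)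
  show ⟪f (e i), g i⟫_ℂ = ⟪f (e i), g (e (e i))⟫_ℂ
  rw [he]

theorem permOp_norm_le (e : ι → ι) (he : ∀ i, e (e i) = i) : ‖permOp e‖ ≤ 1 := by
  refine ContinuousLinearMap.opNorm_le_bound _ zero_le_one (fun f => ?_)
  rw [one_mul, EuclideanSpace.norm_eq, EuclideanSpace.norm_eq]
  refine Real.sqrt_le_sqrt (le_of_eq ?_)
  exact Equiv.sum_comp (⟨e, e, he, he⟩ : Equiv.Perm ι) (fun i => ‖f i‖ ^ 2)

theorem diagOp_norm_le (g : ι → ℂ) (hg : ∀ i, ‖g i‖ ≤ 1) : ‖diagOp g‖ ≤ 1 := by
  refine ContinuousLinearMap.opNorm_le_bound _ zero_le_one (fun f => ?_)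
  rw [one_mul, EuclideanSpace.norm_eq, EuclideanSpace.norm_eq]
  refine Real.sqrt_le_sqrt (Finset.sum_le_sum (fun i _ => ?_))
  rw [diagOp_apply, norm_mul]
  have h1 := hg i
  have h2 := norm_nonneg (g i)
  have h3 := norm_nonneg (f i)
  calc (‖g i‖ * ‖f i‖) ^ 2 ≤ (1 * ‖f i‖) ^ 2 := by gcongr
    _ = _ := by rw [one_mul]

theorem permOp_single [DecidableEq ι] (e : ι → ι) (he : ∀ i, e (e i) = i) (i : ι) (c : ℂ) :
    permOp e (EuclideanSpace.single i c) = EuclideanSpace.single (e i) c := by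
  ext j
  rw [permOp_apply, PiLp.single_apply, PiLp.single_apply]
  congr 1
  refine propext ⟨fun h => ?_, fun h => ?_⟩
  · rw [← h, he]
  · rw [h, he]

end Ops

end Pool.Agent.MP3437a9
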