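import Pool.Agent.Lib.MP_3437a9_an.A1
import Pool.Agent.Lib.MP_3437a9_an.Tensor

set_option autoImplicit false
set_option linter.unusedVariables false
set_option linter.unusedSectionVars false

open scoped InnerProductSpace ComplexConjugate ENNReal Topology
open Filter

namespace Pool.Agent.MP3437a9

/-- The big ambient algebra: product over all `(m, n)` of the operators on the `m`-th tensor
power of `ℓ²(Ω_n)`. -/
def A2 : Type := PL (fun p : ℕ × ℕ => EE (JJ (Om p.2) p.1))

noncomputable instance instA2 : NonUnitalCStarAlgebra A2 :=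
  inferInstanceAs (NonUnitalCStarAlgebra (PL (fun p : ℕ × ℕ => EE (JJ (Om p.2) p.1))))

namespace A2

/-- the coordinates, as linear maps -/
noncomputable def co (p : ℕ × ℕ) : A2 →ₗ[ℂ] EE (JJ (Om p.2) p.1) :=
  PL.co (E := fun p : ℕ × ℕ => EE (JJ (Om p.2) p.1)) p

/-- the coordinates -/
noncomputable def c (x : A2) (p : ℕ × ℕ) : EE (JJ (Om p.2) p.1) := co p x

noncomputable instance : CoeFun A2 (fun _ => ∀ p : ℕ × ℕ, EE (JJ (Om p.2) p.1)) := ⟨c⟩

theorem c_add (x y : A2) (k : ℕ × ℕ) : (x + y) k = x k + y k := map_add (co k) x y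

theorem c_sub (x y : A2) (k : ℕ × ℕ) : (x - y) k = x k - y k := map_sub (co k) x y

theorem c_smul (a : ℂ) (x : A2) (k : ℕ × ℕ) : (a • x) k = a • x k := map_smul (co k) a x

theorem c_zero (k : ℕ × ℕ) : (0 : A2) k = 0 := map_zero (co k)

theorem c_mul (x y : A2) (k : ℕ × ℕ) : (x * y) k = x k * y k := rfl

theorem ext {x y : A2} (h : ∀ k, x k = y k) : x = y :=
  PL.ext (E := fun p : ℕ × ℕ => EE (JJ (Om p.2) p.1)) h

theorem norm_c_le (x : A2) (k : ℕ × ℕ) : ‖x k‖ ≤ ‖x‖ :=
  PL.norm_co_le (E := fun p : ℕ × ℕ => EE (JJ (Om p.2) p.1)) x k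

theorem norm_le {x : A2} {C : ℝ} (hC : 0 ≤ C) (h : ∀ k, ‖x k‖ ≤ C) : ‖x‖ ≤ C :=
  PL.norm_le (E := fun p : ℕ × ℕ => EE (JJ (Om p.2) p.1)) hC h

/-- bounded family as an element -/
noncomputable def mk (f : ∀ p : ℕ × ℕ, EE (JJ (Om p.2) p.1)) (C : ℝ) (h : ∀ p, ‖f p‖ ≤ C) : A2 :=
  PL.mk (E := fun p : ℕ × ℕ => EE (JJ (Om p.2) p.1)) f C h

theorem c_mk (f : ∀ p : ℕ × ℕ, EE (JJ (Om p.2) p.1)) (C : ℝ) (h : ∀ p, ‖f p‖ ≤ C) (p : ℕ × ℕ) :
    (mk f C h) p = f p := rfl

end A2

/-- coordinates of a row element -/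
noncomputable def rowFun (m : ℕ) (y : Fin m → A1) (p : ℕ × ℕ) : EE (JJ (Om p.2) p.1) :=
  if h : p.1 = m then ten p.1 (fun i => y (Fin.cast h i) p.2) else 0

theorem rowFun_self (m n : ℕ) (y : Fin m → A1) : rowFun m y (m, n) = ten m (fun i => y i n) := by
  unfold rowFun
  rw [dif_pos rfl]
  rfl

theorem rowFun_ne (m : ℕ) (y : Fin m → A1) (p : ℕ × ℕ) (h : p.1 ≠ m) : rowFun m y p = 0 := by
  unfold rowFun
  rw [dif_neg h]

theorem rowFun_norm_le (m : ℕ) (y : Fin m → A1) (p : ℕ × ℕ) :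
    ‖rowFun m y p‖ ≤ ∏ i, ‖y i‖ := by
  by_cases h : p.1 = m
  · obtain ⟨a, n⟩ := p
    change a = m at h
    subst h
    rw [rowFun_self]
    refine (ten_norm_le a _).trans ?_
    exact Finset.prod_le_prod (fun i _ => norm_nonneg _)
      (fun i _ => A1.norm_c_le (y i) n)
  · rw [rowFun_ne m y p h, norm_zero]
    exact Finset.prod_nonneg (fun i _ => norm_nonneg _)

theorem upd_eval {m : ℕ} (y : Fin m → A1) (i : Fin m) (x : A1) (n : ℕ) :
    (fun j => (Function.update y i x j : A1) n)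
      = Function.update (fun j => y j n) i (x n) := by
  funext j
  by_cases hj : j = i
  · subst hj; simp
  · simp [hj]

/-- The row embedding of tuples. -/
noncomputable def rowM (m : ℕ) : MultilinearMap ℂ (fun _ : Fin m => A1) A2 where
  toFun y := A2.mk (rowFun m y) (∏ i, ‖y i‖) (rowFun_norm_le m y)
  map_update_add' := by
    intro hdec y i a b
    have hde : hdec = instDecidableEqFin m := Subsingleton.elim _ _
    subst hde
    refine A2.ext (fun p => ?_)
    rw [A2.c_add, A2.c_mk, A2.c_mk, A2.c_mk]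
    by_cases h : p.1 = m
    · obtain ⟨c, n⟩ := p
      change c = m at h
      subst h
      rw [rowFun_self, rowFun_self, rowFun_self, upd_eval, upd_eval, upd_eval]
      exact (ten c).map_update_add _ _ _ _
    · rw [rowFun_ne m _ p h, rowFun_ne m _ p h, rowFun_ne m _ p h, add_zero]
  map_update_smul' := by
    intro hdec y i c a
    have hde : hdec = instDecidableEqFin m := Subsingleton.elim _ _
    subst hde
    refine A2.ext (fun p => ?_)
    rw [A2.c_smul, A2.c_mk, A2.c_mk]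
    by_cases h : p.1 = m
    · obtain ⟨d, n⟩ := p
      change d = m at h
      subst h
      rw [rowFun_self, rowFun_self, upd_eval, upd_eval]
      exact (ten d).map_update_smul _ _ _ _
    · rw [rowFun_ne m _ p h, rowFun_ne m _ p h]
      exact (smul_zero (A := EE (JJ (Om p.2) p.1)) c).symm

theorem rowM_apply (m : ℕ) (y : Fin m → A1) (p : ℕ × ℕ) : rowM m y p = rowFun m y p := rfl

theorem rowM_norm_le (m : ℕ) (y : Fin m → A1) : ‖rowM m y‖ ≤ ∏ i, ‖y i‖ :=
  A2.norm_le (Finset.prod_nonneg (fun i _ => norm_nonneg _))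
    (fun p => rowFun_norm_le m y p)

theorem rowM_supp (m n : ℕ) (y : Fin m → A1) (i : Fin m) (h : ∀ k, k ≠ n → y i k = 0)
    (p : ℕ × ℕ) (hp : p ≠ (m, n)) : rowM m y p = 0 := by
  rw [rowM_apply]
  by_cases h1 : p.1 = m
  · obtain ⟨a, k⟩ := p
    change a = m at h1
    subst h1
    have hk : k ≠ n := fun h' => hp (by rw [h'])
    rw [rowFun_self]
    exact (ten a).map_coord_zero i (h k hk)
  · exact rowFun_ne m y p h1

end Pool.Agent.MP3437a9
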