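import Pool.Agent.Lib.MP_3437a9_an.A1
import Pool.Agent.Lib.MP_3437a9_an.ConjLp

set_option autoImplicit false
set_option linter.unusedVariables false
set_option linter.unusedSectionVars false

open scoped InnerProductSpace ComplexConjugate ENNReal

namespace Pool.Agent.MP3437a9

/-- Translate of a set by the configuration of `ω`. -/
def trE {n : ℕ} (ω : Om n) (E : Set XX) : Set XX := (fun κ => κ + kap ω) ⁻¹' E

theorem FL_trE {n : ℕ} (ω : Om n) {E : Set XX} (hE : FL E) : FL (trE ω E) :=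
  hE.preimage_add _

/-- the basis vectors -/
noncomputable def dl {n : ℕ} (ω : Om n) : HN n := EuclideanSpace.single ω 1

theorem dl_norm {n : ℕ} (ω : Om n) : ‖dl ω‖ = 1 := by
  unfold dl; simp

theorem inner_dl {n : ℕ} (ω : Om n) (f : HN n) : ⟪dl ω, f⟫_ℂ = f ω := by
  unfold dl
  rw [EuclideanSpace.inner_single_left]; simp

theorem Pdl {n : ℕ} (s : Option (Fin 3)) (ω : Om n) : permOp (actO s) (dl ω) = dl (actO s ω) :=
  permOp_single _ (actO_invol s) _ _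

theorem re_inner_le {n : ℕ} (T : HN n →L[ℂ] HN n) (ω : Om n) {c : ℝ} (hT : ‖T‖ ≤ c) :
    |(⟪dl ω, T (dl ω)⟫_ℂ).re| ≤ c := by
  calc |(⟪dl ω, T (dl ω)⟫_ℂ).re| ≤ ‖⟪dl ω, T (dl ω)⟫_ℂ‖ := Complex.abs_re_le_norm _
    _ ≤ ‖dl ω‖ * ‖T (dl ω)‖ := norm_inner_le_norm _ _
    _ ≤ ‖dl ω‖ * (‖T‖ * ‖dl ω‖) := by gcongr; exact T.le_opNorm _
    _ = ‖T‖ := by rw [dl_norm]; ring
    _ ≤ c := hT

section Main

variable {n : ℕ} (Ψ : A1 →ₗ[ℂ] (HN n →L[ℂ] HN n))

/-- local value -/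
noncomputable def loc (ω : Om n) (E : Set XX) : ℝ := (⟪dl ω, Ψ (dE E) (dl ω)⟫_ℂ).re

noncomputable def MM (E : Set XX) : ℝ := ∑ ω : Om n, loc Ψ ω (trE ω E)

variable (t : ℝ) (ht : 0 < t) (ht1 : t ≤ 1) (hΨ : ∀ x ∈ DD, ‖Ψ x‖ ≤ (1 + t ^ 2) * ‖x‖)
  (h0 : ∀ x ∈ DD, (∀ k, k ≠ n → x k = 0) → Ψ x = 0)
  (hg : ∀ f, ‖Ψ (gen f) - gen f n‖ ≤ t ^ 2)

theorem loc_union (ω : Om n) {E F : Set XX} (h : Disjoint E F) :
    loc Ψ ω (E ∪ F) = loc Ψ ω E + loc Ψ ω F := by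
  unfold loc
  rw [dE_union h, map_add, add_apply, inner_add_right, Complex.add_re]

include hg in
theorem loc_univ (ω : Om n) : |loc Ψ ω Set.univ - 1| ≤ t ^ 2 := by
  have h1 := hg (some none)
  have h2 := re_inner_le _ ω h1
  have e : gen (some none) n = 1 := dE_univ_apply n
  rw [sub_apply, inner_sub_right, Complex.sub_re, e] at h2
  have e2 : (⟪dl ω, (1 : HN n →L[ℂ] HN n) (dl ω)⟫_ℂ).re = 1 := by
    show (⟪dl ω, dl ω⟫_ℂ).re = 1
    rw [inner_self_eq_norm_sq_to_K, dl_norm]; simp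
  rw [e2] at h2
  exact h2

include hΨ hg in
theorem loc_pos (ω : Om n) {E : Set XX} (hE : FL E) : -t ^ 2 ≤ loc Ψ ω E := by
  have h1 : ‖dE E - dE Eᶜ‖ ≤ 1 := by
    refine A1.norm_le zero_le_one (fun k => ?_)
    rw [A1.c_sub]
    have e : dE E k - dE Eᶜ k = diagOp (fun ω : Om k => ind E (kap ω) - ind Eᶜ (kap ω)) := by
      rw [dE_apply, dE_apply]
      ext f ω
      rw [sub_apply, PiLp.sub_apply, diagOp_apply, diagOp_apply, diagOp_apply]
      ring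
    rw [e]
    refine diagOp_norm_le _ (fun ω => ?_)
    by_cases h : kap ω ∈ E
    · have h' : kap ω ∉ Eᶜ := fun h'' => h'' h
      rw [ind_of_mem h, ind_of_notMem h']; simp
    · have h' : kap ω ∈ Eᶜ := h
      rw [ind_of_mem h', ind_of_notMem h]; simp
  have h2 := hΨ _ (DD.sub_mem (dE_mem hE) (dE_mem hE.compl))
  have h3 : ‖Ψ (dE E - dE Eᶜ)‖ ≤ 1 + t ^ 2 := by
    refine h2.trans ?_
    have : 0 ≤ 1 + t ^ 2 := by positivity
    nlinarith
  have h4 := abs_le.1 (re_inner_le _ ω h3)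
  rw [map_sub, sub_apply, inner_sub_right, Complex.sub_re] at h4
  have h5 := abs_le.1 (loc_univ Ψ t hg ω)
  have h6 : loc Ψ ω Set.univ = loc Ψ ω E + loc Ψ ω Eᶜ := by
    rw [← loc_union Ψ ω disjoint_compl_right, Set.union_compl_self]
  unfold loc at h5 h6 ⊢
  linarith [h4.1, h4.2, h5.1, h5.2]

theorem trE_act (s : Option (Fin 3)) (ω : Om n) (E : Set XX) :
    trE (actO s ω) (act s ⁻¹' E) = act s ⁻¹' (trE ω E) := by
  ext κ
  show act s (κ + kap (actO s ω)) ∈ E ↔ act s κ + kap ω ∈ E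
  rw [kap_act, act_add, act_invol]

include ht ht1 hΨ hg in
theorem loc_conj (s : Option (Fin 3)) (ω : Om n) {E : Set XX} (hE : FL E) :
    |loc Ψ (actO s ω) (act s ⁻¹' E) - loc Ψ ω E| ≤ 24 * t := by
  have hE' := hE.preimage_act s
  have main := conj_lp A1.co (fun y C hC h => A1.norm_le hC h) DD Ψ t ht ht1 hΨ
    (dE Set.univ) (Ps s) (dE E) (Ps s * dE E) (dE E * Ps s)
    (dE (act s ⁻¹' E)) dE_univ_apply
    (fun k => permOp_mul_self _ (actO_invol s)) (fun k => permOp_star _ (actO_invol s))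
    (fun k => rfl) (fun k => rfl) (fun k => dE_conj s E k)
    (fun k => diagOp_norm_le _ (fun ω => ind_norm_le _ _))
    (dE_mem FL.univ) (Ps_mem s) (dE_mem hE) (Ps_dE_mem hE s) (dE_Ps_mem hE s) (dE_mem hE')
    (permOp (actO s)) (permOp_mul_self _ (actO_invol s)) (permOp_star _ (actO_invol s))
    (by
      have := hg (some none)
      rw [show gen (some none) n = 1 from dE_univ_apply n] at this
      exact this)
    (hg (some (some s))) (dl ω) (dl_norm ω)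
  rw [Pdl] at main
  unfold loc
  rw [← Complex.sub_re]
  exact (Complex.abs_re_le_norm _).trans main

/-- reindexing by an involution -/
noncomputable def actPerm (s : Option (Fin 3)) : Equiv.Perm (Om n) :=
  ⟨actO s, actO s, actO_invol s, actO_invol s⟩

include ht ht1 hΨ hg in
theorem MM_conj (s : Option (Fin 3)) {E : Set XX} (hE : FL E) :
    |MM Ψ (act s ⁻¹' E) - MM Ψ E| ≤ (Fintype.card (Om n)) * (24 * t) := by
  have e1 : MM Ψ (act s ⁻¹' E) = ∑ ω : Om n, loc Ψ (actO s ω) (act s ⁻¹' (trE ω E)) := by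
    unfold MM
    rw [← Equiv.sum_comp (actPerm s)]
    refine Finset.sum_congr rfl (fun ω _ => ?_)
    show loc Ψ (actO s ω) (trE (actO s ω) (act s ⁻¹' E)) = _
    rw [trE_act]
  rw [e1]
  unfold MM
  rw [← Finset.sum_sub_distrib]
  refine (Finset.abs_sum_le_sum_abs _ _).trans ?_
  refine (Finset.sum_le_card_nsmul _ _ (24 * t) (fun ω _ => ?_)).trans ?_
  · exact loc_conj Ψ t ht ht1 hΨ hg s ω (FL_trE ω hE)
  · rw [Finset.card_univ, nsmul_eq_mul]

include hΨ hg in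
theorem MM_pos {E : Set XX} (hE : FL E) : -((Fintype.card (Om n)) * t ^ 2) ≤ MM Ψ E := by
  unfold MM
  have := Finset.card_nsmul_le_sum Finset.univ (fun ω : Om n => loc Ψ ω (trE ω E)) (-t ^ 2)
    (fun ω _ => loc_pos Ψ t hΨ hg ω (FL_trE ω hE))
  rw [Finset.card_univ, nsmul_eq_mul] at this
  linarith

theorem MM_add {E F : Set XX} (h : Disjoint E F) : MM Ψ (E ∪ F) = MM Ψ E + MM Ψ F := by
  unfold MM
  rw [← Finset.sum_add_distrib]
  refine Finset.sum_congr rfl (fun ω _ => ?_)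
  rw [← loc_union]
  · rfl
  · exact Disjoint.preimage _ h

theorem one_bit (a b : ZMod 2) : (a + b = 1) ↔ (b = 1 → ¬ a = 1) ∧ (¬ b = 1 → a = 1) := by
  revert a b; decide

include hg in
theorem loc_W (ω : Om n) : loc Ψ ω (trE ω WW) ≤ 2 * t ^ 2 := by
  have h1 := abs_le.1 (re_inner_le _ ω (hg none))
  rw [sub_apply, inner_sub_right, Complex.sub_re] at h1
  have e : gen none n (dl ω) = ind WW (kap ω) • dl ω := by
    show diagOp (fun ω : Om n => ind WW (kap ω)) (dl ω) = _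
    ext ω'
    rw [diagOp_apply, PiLp.smul_apply, smul_eq_mul]
    unfold dl
    rw [PiLp.single_apply]
    split_ifs with h
    · rw [h]
    · simp
  rw [e, inner_smul_right, inner_self_eq_norm_sq_to_K, dl_norm] at h1
  have h5 := abs_le.1 (loc_univ Ψ t hg ω)
  have h6 : loc Ψ ω Set.univ = loc Ψ ω WW + loc Ψ ω WWᶜ := by
    rw [← loc_union Ψ ω disjoint_compl_right, Set.union_compl_self]
  by_cases hω : kap ω ∈ WW
  · have e2 : trE ω WW = WWᶜ := by
      ext κ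
      show ((κ.1 0).1 + ((kap ω).1 0).1 = 1) ↔ ¬ ((κ.1 0).1 = 1)
      have : ((kap ω).1 0).1 = 1 := hω
      rw [one_bit]
      simp [this]
    rw [e2]
    rw [ind_of_mem hω] at h1
    unfold loc at h5 h6 ⊢
    change -t ^ 2 ≤ (⟪dl ω, Ψ (dE WW) (dl ω)⟫_ℂ).re - _ ∧ (⟪dl ω, Ψ (dE WW) (dl ω)⟫_ℂ).re - _ ≤ _
      at h1
    simp at h1
    linarith [h1.1, h1.2, h5.1, h5.2]
  · have e2 : trE ω WW = WW := by
      ext κ
      show ((κ.1 0).1 + ((kap ω).1 0).1 = 1) ↔ ((κ.1 0).1 = 1)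
      have : ¬ ((kap ω).1 0).1 = 1 := hω
      rw [one_bit]
      simp [this]
    rw [e2]
    rw [ind_of_notMem hω] at h1
    unfold loc at h5 h6 ⊢
    change -t ^ 2 ≤ (⟪dl ω, Ψ (dE WW) (dl ω)⟫_ℂ).re - _ ∧ (⟪dl ω, Ψ (dE WW) (dl ω)⟫_ℂ).re - _ ≤ _
      at h1
    simp at h1
    have : 0 ≤ t ^ 2 := sq_nonneg _
    linarith [h1.1, h1.2, h5.1, h5.2]

include hg in
theorem MM_W : MM Ψ WW ≤ 2 * ((Fintype.card (Om n)) * t ^ 2) := by
  unfold MM
  have := Finset.sum_le_card_nsmul Finset.univ (fun ω : Om n => loc Ψ ω (trE ω WW)) (2 * t ^ 2)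
    (fun ω _ => loc_W Ψ t hg ω)
  rw [Finset.card_univ, nsmul_eq_mul] at this
  linarith

include h0 in
theorem loc_R (hn : 1 ≤ n) (ω : Om n) : loc Ψ ω (RR n) = 0 := by
  unfold loc
  rw [h0 _ (dE_mem (FL_RR n))]
  · simp
  · intro k hk
    rw [dE_apply]
    ext f ω
    rw [diagOp_apply, ind_of_notMem, zero_mul]
    · rfl
    · show ¬ ((if h : (n - 1) + 1 = k then _ else 0) = 1)
      rw [dif_neg (by omega)]
      decide

/-- The flip of the last bit. -/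
def fl (n : ℕ) : Om n := (fun j => if j.1 + 1 = n then 1 else 0, 0)

theorem fl_fl (ω : Om n) : ω + fl n + fl n = ω := by
  refine Prod.ext ?_ ?_
  · funext j; exact z2 _ _
  · funext j; exact z2 _ _

noncomputable def flPerm (n : ℕ) : Equiv.Perm (Om n) :=
  ⟨fun ω => ω + fl n, fun ω => ω + fl n, fl_fl, fl_fl⟩

include hg h0 in
theorem MM_R (hn : 1 ≤ n) : (Fintype.card (Om n)) * (1 - t ^ 2) ≤ 2 * MM Ψ (RR n) := by
  have e1 : MM Ψ (RR n) = ∑ ω : Om n, loc Ψ (ω + fl n) (trE (ω + fl n) (RR n)) := by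
    unfold MM
    rw [← Equiv.sum_comp (flPerm n)]
    rfl
  have e2 : 2 * MM Ψ (RR n) = ∑ ω : Om n, (loc Ψ ω (trE ω (RR n))
      + loc Ψ (ω + fl n) (trE (ω + fl n) (RR n))) := by
    rw [Finset.sum_add_distrib, ← e1]
    unfold MM
    ring
  rw [e2]
  have hloc : ∀ ω : Om n, (((kap ω).1 (n - 1)).2 = 1 → 1 - t ^ 2 ≤ loc Ψ ω (trE ω (RR n))) ∧
      (¬ ((kap ω).1 (n - 1)).2 = 1 → loc Ψ ω (trE ω (RR n)) = 0) := by
    intro ω
    constructor
    · intro h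
      have e3 : trE ω (RR n) = (RR n)ᶜ := by
        ext κ
        show ((κ.1 (n - 1)).2 + ((kap ω).1 (n - 1)).2 = 1) ↔ ¬ ((κ.1 (n - 1)).2 = 1)
        rw [one_bit]
        simp [h]
      rw [e3]
      have h5 := abs_le.1 (loc_univ Ψ t hg ω)
      have h6 : loc Ψ ω Set.univ = loc Ψ ω (RR n) + loc Ψ ω (RR n)ᶜ := by
        rw [← loc_union Ψ ω disjoint_compl_right, Set.union_compl_self]
      rw [loc_R Ψ h0 hn] at h6
      linarith [h5.1, h5.2]
    · intro h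
      have e3 : trE ω (RR n) = RR n := by
        ext κ
        show ((κ.1 (n - 1)).2 + ((kap ω).1 (n - 1)).2 = 1) ↔ ((κ.1 (n - 1)).2 = 1)
        rw [one_bit]
        simp [h]
      rw [e3, loc_R Ψ h0 hn]
  have hflip : ∀ ω : Om n, ((kap (ω + fl n)).1 (n - 1)).2 = ((kap ω).1 (n - 1)).2 + 1 := by
    intro ω
    rw [kap_add]
    show ((kap ω).1 (n - 1)).2 + (if h : (n - 1) + 1 = n then _ else 0) = _
    rw [dif_pos (by omega)]
    congr 1
    show (if (n - 1) + 1 = n then (1 : ZMod 2) else 0) = 1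
    rw [if_pos (by omega)]
  have := Finset.card_nsmul_le_sum Finset.univ (fun ω : Om n => loc Ψ ω (trE ω (RR n))
      + loc Ψ (ω + fl n) (trE (ω + fl n) (RR n))) (1 - t ^ 2)
    (fun ω _ => by
      by_cases h : ((kap ω).1 (n - 1)).2 = 1
      · have h' : ¬ ((kap (ω + fl n)).1 (n - 1)).2 = 1 := by
          rw [hflip, h]; decide
        have a := (hloc ω).1 h
        have b := (hloc (ω + fl n)).2 h'
        show 1 - t ^ 2 ≤ _ + _
        rw [b]; linarith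
      · have h' : ((kap (ω + fl n)).1 (n - 1)).2 = 1 := by
          rw [hflip, (z2ne _).1 h]; decide
        have a := (hloc ω).2 h
        have b := (hloc (ω + fl n)).1 h'
        show 1 - t ^ 2 ≤ _ + _
        rw [a]; linarith)
  rw [Finset.card_univ, nsmul_eq_mul] at this
  exact this

end Main

/-- **Theorem N**. -/
theorem thmN (n : ℕ) (hn : 1 ≤ n) (Ψ : A1 →ₗ[ℂ] (HN n →L[ℂ] HN n))
    (hΨ : ∀ x ∈ DD, ‖Ψ x‖ ≤ (1 + (1 / 1000 : ℝ) ^ 2) * ‖x‖)
    (h0 : ∀ x ∈ DD, (∀ k, k ≠ n → x k = 0) → Ψ x = 0)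
    (hg : ∀ f, ‖Ψ (gen f) - gen f n‖ ≤ (1 / 1000 : ℝ) ^ 2) : False := by
  have ht : (0 : ℝ) < 1 / 1000 := by norm_num
  have ht1 : (1 / 1000 : ℝ) ≤ 1 := by norm_num
  have hN : (0 : ℝ) < Fintype.card (Om n) := by
    exact_mod_cast Fintype.card_pos
  have h1 := comb n hn (MM Ψ) ((Fintype.card (Om n)) * (24 * (1 / 1000 : ℝ)))
    ((Fintype.card (Om n)) * (1 / 1000 : ℝ) ^ 2)
    (fun E F _ _ h => MM_add Ψ h) (fun E hE => MM_pos Ψ _ hΨ hg hE)
    (fun s E hE => MM_conj Ψ _ ht ht1 hΨ hg s hE) (MM_W Ψ _ hg)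
  have h2 := MM_R Ψ (1 / 1000 : ℝ) h0 hg hn
  nlinarith

end Pool.Agent.MP3437a9
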